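import Mathlib

/-!
Shared definitions for the proof of S02909 (MP_bd8d3e_al): every countably categorical
alternative nil ring is solvable.
-/

set_option autoImplicit false

namespace Pool.Agent.Helper99.BD8

variable {A : Type*} [NonUnitalNonAssocRing A]

/-- `T true a` is left multiplication by `a`, `T false a` is right multiplication by `a`,
as an element of the (associative, unital) ring `AddMonoid.End A`. -/
def T (t : Bool) (a : A) : AddMonoid.End A :=
  if t then AddMonoidHom.mulLeft a else AddMonoidHom.mulRight a

@[simp] theorem T_true (a x : A) : T true a x = a * x := rfl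
@[simp] theorem T_false (a x : A) : T false a x = x * a := rfl

/-- the product of a list of one-sided multiplications -/
def W (w : List (Bool × A)) : AddMonoid.End A := (w.map fun p => T p.1 p.2).prod

@[simp] theorem W_nil : W ([] : List (Bool × A)) = 1 := rfl
@[simp] theorem W_cons (p : Bool × A) (w : List (Bool × A)) :
    W (p :: w) = T p.1 p.2 * W w := by simp [W]
theorem W_append (v w : List (Bool × A)) : W (v ++ w) = W v * W w := by simp [W]

/-- `u` is a sandwich: every nonassociative word containing `u` twice vanishes, i.e.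
`(Φ u) (Ψ u) = 0` for all `Φ, Ψ` in the multiplication ring. -/
def Sandwich (u : A) : Prop := ∀ v w : List (Bool × A), W v u * W w u = 0

/-- `G` has finitely many orbits on `n`-tuples, for every `n`. -/
def OrbFin (G : Subgroup (RingAut A)) : Prop :=
  ∀ n : ℕ, ∃ F : Set (Fin n → A), F.Finite ∧
    ∀ x : Fin n → A, ∃ g ∈ G, ∃ f ∈ F, ∀ i, x i = g (f i)

/-- an additive subgroup that is a two-sided ideal -/
def IsIdl (I : AddSubgroup A) : Prop := ∀ a ∈ I, ∀ x : A, a * x ∈ I ∧ x * a ∈ I

/-- `A` has no proper nonzero `G`-invariant two-sided ideal. -/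
def GSimple (G : Subgroup (RingAut A)) : Prop :=
  ∀ I : AddSubgroup A, IsIdl I → (∀ g ∈ G, ∀ a ∈ I, g a ∈ I) → I = ⊥ ∨ I = ⊤

/-- `A = A²` -/
def Perf (A : Type*) [NonUnitalNonAssocRing A] : Prop :=
  AddSubgroup.closure {z : A | ∃ u v : A, u * v = z} = ⊤

/-- the derived series -/
def derived (A : Type*) [NonUnitalNonAssocRing A] : ℕ → AddSubgroup A
  | 0 => ⊤
  | k + 1 => AddSubgroup.closure {z : A | ∃ u ∈ derived A k, ∃ v ∈ derived A k, u * v = z}

/-- alternative ring -/
def Alt (A : Type*) [NonUnitalNonAssocRing A] : Prop :=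
  ∀ x y : A, (x * x) * y = x * (x * y) ∧ (y * x) * x = y * (x * x)

/-- nil ring (right-normed powers) -/
def Nil (A : Type*) [NonUnitalNonAssocRing A] : Prop :=
  ∀ x : A, ∃ n : ℕ, (fun y => y * x)^[n] x = 0

/-
MODULE INTERFACES.

-- M1 (model theory; Ryll-Nardzewski):
theorem M1 (A : Type) [NonUnitalNonAssocRing A]
      (S : (FirstOrder.Language.mk
              (fun n : ℕ => Fin (if n = 2 then 2 else if n ≤ 1 then 1 else 0))
              (fun _ : ℕ => Empty)).Structure A)
      (hS :
        S = { funMap := fun {n} i x =>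
                if n = 2 ∧ Fin.val i = 1 then (List.ofFn x).headD 0 * (List.ofFn x).getLastD 0
                else if n = 1 then -(∑ j, x j) else ∑ j, x j,
              RelMap := fun {n} r _ => Empty.elim r })
      (hcat : Cardinal.Categorical Cardinal.aleph0.{0}
        (FirstOrder.Language.completeTheory
          (FirstOrder.Language.mk
              (fun n : ℕ => Fin (if n = 2 then 2 else if n ≤ 1 then 1 else 0))
              (fun _ : ℕ => Empty)) A)) :
    ∃ B : NonUnitalSubring A, OrbFin (⊤ : Subgroup (RingAut B)) ∧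
      ∀ k : ℕ, derived B k = ⊥ → derived A k = ⊥

-- M2 (helper1's general theorem):
theorem M2 (A : Type) [NonUnitalNonAssocRing A] (G : Subgroup (RingAut A)) (hG : OrbFin G)
    (hs : GSimple G) (hp : Perf A) (u : A) (hu : u ≠ 0) (hsw : Sandwich u) : False

-- M3+M4 (alternative ring theory):
theorem M3 (A : Type) [NonUnitalNonAssocRing A] (halt : Alt A) (hnil : Nil A)
    (hG : OrbFin (⊤ : Subgroup (RingAut A))) : ∃ k, derived A k = ⊥
-/

end Pool.Agent.Helper99.BD8
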