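import Pool.Agent.Helper99.BD8.Defs

/-!
Operator identities of alternative rings and the sets `Y s`.
-/

set_option autoImplicit false

namespace Pool.Agent.Helper99.BD8

variable {A : Type*} [NonUnitalNonAssocRing A]

/-- `Y s a`: `a² = 0` and `T_a w T'_a = 0` for all words `w` of length at most `s`. -/
def Y (s : ℕ) (a : A) : Prop :=
  a * a = 0 ∧ ∀ (t t' : Bool) (w : List (Bool × A)), w.length ≤ s → T t a * W w * T t' a = 0

theorem ap_mul (f g : AddMonoid.End A) (x : A) : (f * g) x = f (g x) := rfl
theorem ap_add (f g : AddMonoid.End A) (x : A) : (f + g) x = f x + g x := rfl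
theorem ap_sub (f g : AddMonoid.End A) (x : A) : (f - g) x = f x - g x := rfl
theorem ap_neg (f : AddMonoid.End A) (x : A) : (-f) x = - f x := rfl
theorem ap_zero (x : A) : (0 : AddMonoid.End A) x = 0 := rfl

theorem Tadd (t : Bool) (x y : A) : T t (x + y) = T t x + T t y := by
  ext z; cases t <;> simp [ap_add, mul_add, add_mul]

theorem Tneg (t : Bool) (x : A) : T t (-x) = - T t x := by
  ext z; cases t <;> simp [ap_neg]

theorem Tsub (t : Bool) (x y : A) : T t (x - y) = T t x - T t y := by
  rw [sub_eq_add_neg, Tadd, Tneg, sub_eq_add_neg]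

theorem Tzero (t : Bool) : T t (0 : A) = 0 := by
  ext z; cases t <;> simp

/-- linearized left alternative law -/
theorem altL (h : Alt A) (x y z : A) :
    (x * y) * z + (y * x) * z = x * (y * z) + y * (x * z) := by
  have h1 := (h (x + y) z).1
  have h2 := (h x z).1
  have h3 := (h y z).1
  simp only [add_mul, mul_add] at h1
  rw [h2, h3] at h1
  have e2 : ((x * y) * z + (y * x) * z) - (x * (y * z) + y * (x * z)) = 0 := by
    have := sub_eq_zero.mpr h1
    rw [← this]; abel
  exact sub_eq_zero.mp e2

theorem altR (h : Alt A) (x y z : A) :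
    (z * x) * y + (z * y) * x = z * (x * y) + z * (y * x) := by
  have h1 := (h (x + y) z).2
  have h2 := (h x z).2
  have h3 := (h y z).2
  simp only [add_mul, mul_add] at h1
  rw [h2, h3] at h1
  have e2 : ((z * x) * y + (z * y) * x) - (z * (x * y) + z * (y * x)) = 0 := by
    have := sub_eq_zero.mpr h1
    rw [← this]; abel
  exact sub_eq_zero.mp e2

/-- `(x,y,z) = -(x,z,y)`, `(x,y,z)=-(y,x,z)` consequences; flexible law linearized. -/
theorem altM (h : Alt A) (x y z : A) :
    (x * y) * z - x * (y * z) = - ((z * y) * x - z * (y * x)) := by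
  -- (x,y,z) = -(y,x,z) = (y,z,x) = -(z,y,x)
  have h1 := altL h x y z
  have h2 := altR h x z y
  have h3 := altL h y z x
  have e : ((x * y) * z - x * (y * z)) + ((z * y) * x - z * (y * x)) = 0 := by
    have a1 := sub_eq_zero.mpr h1
    have a2 := sub_eq_zero.mpr h2
    have a3 := sub_eq_zero.mpr h3
    have : ((x * y) * z - x * (y * z)) + ((z * y) * x - z * (y * x)) =
      (x * y * z + y * x * z - (x * (y * z) + y * (x * z))) -
      (y * x * z + y * z * x - (y * (x * z) + y * (z * x))) +
      (y * z * x + z * y * x - (y * (z * x) + z * (y * x))) := by abel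
    rw [this, a1, a2, a3]; simp
  exact eq_neg_of_add_eq_zero_left e

section ops

variable (h : Alt A) (x y : A)
include h

theorem opLL : T true x * T true y + T true y * T true x = T true (x * y) + T true (y * x) := by
  ext z
  simpa [ap_add, ap_mul] using (altL h x y z).symm

theorem opRR : T false x * T false y + T false y * T false x = T false (x * y) + T false (y * x) := by
  ext z
  have := altR h y x z
  simp only [ap_add, ap_mul, T_false]
  rw [this]; abel

/-- `L_{xy}` -/
theorem opL : T true (x * y) = T true x * T false y + T true x * T true y - T false y * T true x := by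
  ext z
  simp only [ap_add, ap_sub, ap_mul, T_false, T_true]
  -- (xy)z = x(zy) + x(yz) - (xz)y
  have := altR h y z x
  have e := sub_eq_zero.mpr this
  rw [← sub_eq_zero, ← e]; abel

/-- `R_{xy}` -/
theorem opR : T false (x * y) = T false y * T true x - T true x * T false y + T false y * T false x := by
  ext z
  simp only [ap_add, ap_sub, ap_mul, T_false, T_true]
  -- z(xy) = (xz)y - x(zy) + (zx)y
  have := altL h x z y
  have e := sub_eq_zero.mpr this
  rw [← sub_eq_zero]
  have : z * (x * y) - (x * z * y - x * (z * y) + z * x * y) =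
    - (x * z * y + z * x * y - (x * (z * y) + z * (x * y))) := by abel
  rw [this, e]; simp

/-- `[L_x,R_y] + [L_y,R_x] = 0` -/
theorem opD : T true x * T false y - T false y * T true x
    + (T true y * T false x - T false x * T true y) = 0 := by
  ext z
  simp only [ap_add, ap_sub, ap_mul, T_false, T_true, ap_zero]
  have := altM h x z y
  rw [sub_eq_iff_eq_add] at this
  rw [this]; abel

/-- swap `L_x R_y` -/
theorem opLR : T true x * T false y = T false y * T true x + T true y * T true x - T true (y * x) := by
  rw [opL h y x]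
  have := opD h x y
  rw [← sub_eq_zero, ← this]; abel

/-- swap `R_x L_y` -/
theorem opRL : T false x * T true y = T true y * T false x + T false y * T false x - T false (x * y) := by
  rw [opR h x y]
  have := opD h x y
  rw [← sub_eq_zero]
  have e : T false x * T true y - (T true y * T false x + T false y * T false x -
    (T false y * T true x - T true x * T false y + T false y * T false x)) =
    - (T true x * T false y - T false y * T true x
    + (T true y * T false x - T false x * T true y)) := by abel
  rw [e, this]; simp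

end ops

/-
STUBS for the proof of
  hex : Alt A → Nil A → OrbFin G → GSimple G → Perf A → (∃ b : A, b ≠ 0) → ∃ u ≠ 0, Sandwich u

[E] (helper1)
theorem azd (A : Type) [NonUnitalNonAssocRing A] (halt : Alt A) (k : ℕ)
  (hk : ∀ x : A, (fun y => y * x)^[k] x = 0) (hne : ∃ x : A, x ≠ 0) : ∃ b : A, b ≠ 0 ∧ Y 0 b
theorem Y0_mul (halt : Alt A) {a : A} (ha : Y 0 a) (x : A) : Y 0 (a * x) ∧ Y 0 (x * a)

[L0] (helper99)
theorem level0_exists (halt : Alt A) (hc : AddSubgroup.closure {a : A | Y 0 a} = ⊤)
  (hne : ∃ a : A, a ≠ 0 ∧ Y 0 a) : ∃ a : A, a ≠ 0 ∧ Y 1 a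
theorem level0_mul (halt : Alt A) {a b : A} (ha : Y 1 a) (hb : Y 0 b) : Y 1 (a * b) ∧ Y 1 (b * a)

[L1] (helper99)
theorem level1_exists (halt : Alt A) (hc : AddSubgroup.closure {a : A | Y 1 a} = ⊤)
  (hne : ∃ a : A, a ≠ 0 ∧ Y 1 a) : ∃ a : A, a ≠ 0 ∧ Y 2 a
theorem level1_mul (halt : Alt A) {a b : A} (ha : Y 2 a) (hb : Y 1 b) : Y 2 (a * b) ∧ Y 2 (b * a)

[P] (helper1)
theorem doubling (halt : Alt A) {s : ℕ} (hs : 2 ≤ s) {a b : A} (ha : Y s a) (hb : Y s b) :
  Y (s + 1) (a * b)
-/

end Pool.Agent.Helper99.BD8
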