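import Pool.Agent.Helper99.BD8.Levels0

/-!
The doubling step: `Y s a`, `Y s b` (`s ≥ 2`) imply `Y (s+1) (a*b)`.
-/

set_option autoImplicit false

namespace Pool.Agent.Helper99.BD8

variable {A : Type*} [NonUnitalNonAssocRing A]

section words

variable (h : Alt A)
include h

/-- swapping two letters, modulo one letter -/
theorem sw {x y : A} {f g : AddMonoid.End A} (h1 : ∀ t t', f * T t y * T t' x * g = 0)
    (h2 : ∀ t, f * T t (x * y) * g = 0) (h3 : ∀ t, f * T t (y * x) * g = 0) (t t' : Bool) :
    f * T t x * T t' y * g = 0 := by
  cases t <;> cases t'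
  · have e := opRR h x y
    have e1 := h1 false false
    have e2 := h2 false
    have e3 := h3 false
    linear_combination (norm := noncomm_ring) f * e * g - e1 + e2 + e3
  · have e := opRL h x y
    have e1 := h1 true false
    have e2 := h1 false false
    have e3 := h2 false
    linear_combination (norm := noncomm_ring) f * e * g + e1 + e2 - e3
  · have e := opLR h x y
    have e1 := h1 false true
    have e2 := h1 true true
    have e3 := h3 true
    linear_combination (norm := noncomm_ring) f * e * g + e1 + e2 - e3
  · have e := opLL h x y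
    have e1 := h1 true true
    have e2 := h2 true
    have e3 := h3 true
    linear_combination (norm := noncomm_ring) f * e * g - e1 + e2 + e3

/-- splitting a letter -/
theorem sp {x y : A} {f g : AddMonoid.End A} (h1 : ∀ t t', f * T t x * T t' y * g = 0)
    (h2 : ∀ t t', f * T t y * T t' x * g = 0) (t : Bool) : f * T t (x * y) * g = 0 := by
  cases t
  · have e := opR h x y
    have e1 := h2 false true
    have e2 := h1 true false
    have e3 := h2 false false
    linear_combination (norm := noncomm_ring) f * e * g + e1 - e2 + e3
  · have e := opL h x y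
    have e1 := h1 true false
    have e2 := h1 true true
    have e3 := h2 false true
    linear_combination (norm := noncomm_ring) f * e * g + e1 + e2 - e3

/-- `β` is a product with factor `b` -/
def Mg (b β : A) : Prop := ∃ u : A, β = b * u ∨ β = u * b

theorem spM {b β : A} (hβ : Mg b β) {f g : AddMonoid.End A}
    (h1 : ∀ t t' u, f * T t b * T t' u * g = 0)
    (h2 : ∀ t t' u, f * T t u * T t' b * g = 0) (t : Bool) : f * T t β * g = 0 := by
  obtain ⟨u, rfl | rfl⟩ := hβ
  · exact sp h (fun t t' => h1 t t' u) (fun t t' => h2 t t' u) t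
  · exact sp h (fun t t' => h2 t t' u) (fun t t' => h1 t t' u) t

theorem swM {b u : A} {f g : AddMonoid.End A} (h1 : ∀ t t', f * T t u * T t' b * g = 0)
    (h2 : ∀ t β, Mg b β → f * T t β * g = 0) (t t' : Bool) : f * T t b * T t' u * g = 0 :=
  sw h h1 (fun t => h2 t _ ⟨u, Or.inl rfl⟩) (fun t => h2 t _ ⟨u, Or.inr rfl⟩) t t'

theorem swM' {b u : A} {f g : AddMonoid.End A} (h1 : ∀ t t', f * T t b * T t' u * g = 0)
    (h2 : ∀ t β, Mg b β → f * T t β * g = 0) (t t' : Bool) : f * T t u * T t' b * g = 0 :=
  sw h h1 (fun t => h2 t _ ⟨u, Or.inr rfl⟩) (fun t => h2 t _ ⟨u, Or.inl rfl⟩) t t'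

/-- moving a letter to the right through a word -/
theorem move {b : A} {g : AddMonoid.End A} (U : List (Bool × A)) : ∀ f : AddMonoid.End A,
    (∀ t (U' : List (Bool × A)), U'.length = U.length → f * W U' * T t b * g = 0) →
    (∀ t β (U1 U2 : List (Bool × A)), Mg b β → U1.length + 1 + U2.length = U.length →
      f * W U1 * T t β * W U2 * g = 0) →
    ∀ t, f * T t b * W U * g = 0 := by
  induction U with
  | nil =>
    intro f h1 _ t
    have := h1 t [] rfl
    simpa using this
  | cons p U ih =>
    obtain ⟨t1, u⟩ := p
    intro f h1 h2 t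
    have e : f * T t b * W ((t1, u) :: U) * g = f * T t b * T t1 u * (W U * g) := by
      rw [W_cons]; simp only [mul_assoc]
    rw [e]
    refine swM h (fun t t' => ?_) (fun t β hβ => ?_) t t1
    · have := ih (f * T t u) (fun s U' hU' => ?_) (fun s β U1 U2 hβ hU => ?_) t'
      · simpa only [mul_assoc] using this
      · have := h1 s ((t, u) :: U') (by simp [hU'])
        rw [W_cons] at this
        simpa only [mul_assoc] using this
      · have := h2 s β ((t, u) :: U1) U2 hβ (by simp; omega)
        rw [W_cons] at this
        simpa only [mul_assoc] using this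
    · have := h2 t β [] U hβ (by simp; omega)
      simpa only [mul_assoc, W_nil, mul_one] using this

theorem claim2 {s : ℕ} (hs : 2 ≤ s) {a b : A} (ha : Y s a) (hb : Y s b)
    (U : List (Bool × A)) (hU : U.length ≤ s + 1) (t1 t2 t3 t4 : Bool) :
    T t1 a * T t2 b * W U * (T t3 a * T t4 b) = 0 := by
  refine move h U (T t1 a) (fun t U' hU' => ?_) (fun t β U1 U2 hβ hl => ?_) t2
  · have := hb.2 t t4 [(t3, a)] (by simp; omega)
    have e : T t1 a * W U' * T t b * (T t3 a * T t4 b) =
        T t1 a * W U' * (T t b * W [(t3, a)] * T t4 b) := by simp [mul_assoc]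
    rw [e, this, mul_zero]
  · by_cases hUs : U.length ≤ s
    · have := ha.2 t1 t3 (U1 ++ (t, β) :: U2) (by simp; omega)
      rw [W_append, W_cons] at this
      have e : T t1 a * W U1 * T t β * W U2 * (T t3 a * T t4 b) =
        (T t1 a * (W U1 * (T t β * W U2)) * T t3 a) * T t4 b := by simp only [mul_assoc]
      rw [e, this, zero_mul]
    · refine move h U2 (T t1 a * W U1) (fun t U' hU' => ?_) (fun t γ V1 V2 hγ hl' => ?_) t
      · refine spM h hβ (fun t t' u => ?_) (fun t t' u => ?_) t
        · have := hb.2 t t4 [(t', u), (t3, a)] (by simp; omega)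
          have e : T t1 a * W U1 * W U' * T t b * T t' u * (T t3 a * T t4 b) =
            T t1 a * W U1 * W U' * (T t b * W [(t', u), (t3, a)] * T t4 b) := by simp [mul_assoc]
          rw [e, this, mul_zero]
        · have := hb.2 t' t4 [(t3, a)] (by simp; omega)
          have e : T t1 a * W U1 * W U' * T t u * T t' b * (T t3 a * T t4 b) =
            T t1 a * W U1 * W U' * T t u * (T t' b * W [(t3, a)] * T t4 b) := by simp [mul_assoc]
          rw [e, this, mul_zero]
      · have := ha.2 t1 t3 (U1 ++ (V1 ++ (t, γ) :: V2)) (by simp; omega)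
        rw [W_append, W_append, W_cons] at this
        have e : T t1 a * W U1 * W V1 * T t γ * W V2 * (T t3 a * T t4 b) =
          (T t1 a * (W U1 * (W V1 * (T t γ * W V2))) * T t3 a) * T t4 b := by simp only [mul_assoc]
        rw [e, this, zero_mul]

theorem claim1 {s : ℕ} (hs : 2 ≤ s) {a b : A} (ha : Y s a) (hb : Y s b)
    (U : List (Bool × A)) (hU : U.length ≤ s + 1) (t1 t2 t3 t4 : Bool) :
    T t1 a * T t2 b * W U * (T t3 b * T t4 a) = 0 := by
  by_cases hUs : U.length ≤ s
  · have := hb.2 t2 t3 U hUs
    have e : T t1 a * T t2 b * W U * (T t3 b * T t4 a) =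
      T t1 a * (T t2 b * W U * T t3 b) * T t4 a := by simp only [mul_assoc]
    rw [e, this, mul_zero, zero_mul]
  · -- U = u1 :: Um ++ [un]
    rcases U with _ | ⟨⟨t5, u1⟩, U⟩
    · simp at hUs
    rcases List.eq_nil_or_concat U with rfl | ⟨Um, ⟨t6, un⟩, rfl⟩
    · simp at hUs; omega
    have hUm : Um.length + 1 = s := by simp at hUs hU; omega
    have e : T t1 a * T t2 b * W ((t5, u1) :: Um.concat (t6, un)) * (T t3 b * T t4 a) =
        T t1 a * T t2 b * T t5 u1 * (W Um * T t6 un * T t3 b * T t4 a) := by
      rw [W_cons, List.concat_eq_append, W_append]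
      simp [mul_assoc]
    rw [e]
    refine swM h (fun t t' => ?_) (fun t β hβ => ?_) t2 t5
    · have := hb.2 t' t3 (Um ++ [(t6, un)]) (by simp; omega)
      rw [W_append] at this
      have e : T t1 a * T t u1 * T t' b * (W Um * T t6 un * T t3 b * T t4 a) =
        T t1 a * T t u1 * (T t' b * (W Um * W [(t6, un)]) * T t3 b) * T t4 a := by
        simp [mul_assoc]
      rw [e, this, mul_zero, zero_mul]
    · have key : T t1 a * T t β * W Um * T t6 un * T t3 b * T t4 a = 0 := by
        refine swM' h (fun t7 t8 => ?_) (fun t7 β' hβ' => ?_) t6 t3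
        · have e : T t1 a * T t β * W Um * T t7 b * T t8 un * T t4 a =
            T t1 a * T t β * (W Um * T t7 b * T t8 un * T t4 a) := by simp only [mul_assoc]
          rw [e]
          refine spM h hβ (fun s1 s2 u => ?_) (fun s1 s2 u => ?_) t
          · have := hb.2 s1 t7 ((s2, u) :: Um) (by simp; omega)
            rw [W_cons] at this
            have e : T t1 a * T s1 b * T s2 u * (W Um * T t7 b * T t8 un * T t4 a) =
              T t1 a * (T s1 b * (T s2 u * W Um) * T t7 b) * T t8 un * T t4 a := by
              simp only [mul_assoc]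
            rw [e, this, mul_zero, zero_mul, zero_mul]
          · have := hb.2 s2 t7 Um (by omega)
            have e : T t1 a * T s1 u * T s2 b * (W Um * T t7 b * T t8 un * T t4 a) =
              T t1 a * T s1 u * (T s2 b * W Um * T t7 b) * T t8 un * T t4 a := by
              simp only [mul_assoc]
            rw [e, this, mul_zero, zero_mul, zero_mul]
        · have e : T t1 a * T t β * W Um * T t7 β' * T t4 a =
            T t1 a * T t β * W Um * (T t7 β' * T t4 a) := by simp only [mul_assoc]
          rw [e]
          refine move h Um (T t1 a) (fun t9 U' hU' => ?_) (fun t9 γ U1 U2 hγ hl => ?_) t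
          · refine spM h hβ (fun s1 s2 u => ?_) (fun s1 s2 u => ?_) t9
            · rw [← mul_assoc]
              refine spM h hβ' (fun s3 s4 v => ?_) (fun s3 s4 v => ?_) t7
              · have := hb.2 s1 s3 [(s2, u)] (by simp; omega)
                have e : T t1 a * W U' * T s1 b * T s2 u * T s3 b * T s4 v * T t4 a =
                  T t1 a * W U' * (T s1 b * W [(s2, u)] * T s3 b) * T s4 v * T t4 a := by
                  simp [mul_assoc]
                rw [e, this, mul_zero, zero_mul, zero_mul]
              · have := hb.2 s1 s4 [(s2, u), (s3, v)] (by simp; omega)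
                have e : T t1 a * W U' * T s1 b * T s2 u * T s3 v * T s4 b * T t4 a =
                  T t1 a * W U' * (T s1 b * W [(s2, u), (s3, v)] * T s4 b) * T t4 a := by
                  simp [mul_assoc]
                rw [e, this, mul_zero, zero_mul]
            · rw [← mul_assoc]
              refine spM h hβ' (fun s3 s4 v => ?_) (fun s3 s4 v => ?_) t7
              · have := hb.2 s2 s3 [] (by simp)
                have e : T t1 a * W U' * T s1 u * T s2 b * T s3 b * T s4 v * T t4 a =
                  T t1 a * W U' * T s1 u * (T s2 b * W [] * T s3 b) * T s4 v * T t4 a := by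
                  simp [mul_assoc]
                rw [e, this, mul_zero, zero_mul, zero_mul]
              · have := hb.2 s2 s4 [(s3, v)] (by simp; omega)
                have e : T t1 a * W U' * T s1 u * T s2 b * T s3 v * T s4 b * T t4 a =
                  T t1 a * W U' * T s1 u * (T s2 b * W [(s3, v)] * T s4 b) * T t4 a := by
                  simp [mul_assoc]
                rw [e, this, mul_zero, zero_mul]
          · have := ha.2 t1 t4 (U1 ++ ((t9, γ) :: (U2 ++ [(t7, β')]))) (by simp; omega)
            rw [W_append, W_cons, W_append] at this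
            have e : T t1 a * W U1 * T t9 γ * W U2 * (T t7 β' * T t4 a) =
              T t1 a * (W U1 * (T t9 γ * (W U2 * W [(t7, β')]))) * T t4 a := by
              simp [mul_assoc]
            rw [e, this]
      simpa only [mul_assoc] using key

theorem doubling {s : ℕ} (hs : 2 ≤ s) {a b : A} (ha : Y s a) (hb : Y s b) :
    Y (s + 1) (a * b) := by
  constructor
  · have z1 : T false b (a * b) = 0 := by
      have := DFunLike.congr_fun (hb.2 false false [] (by simp)) a
      simpa [ap_mul, ap_zero] using this
    have z2 : T true b (a * b) = 0 := by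
      have := DFunLike.congr_fun (hb.2 true false [] (by simp)) a
      simpa [ap_mul, ap_zero] using this
    have z3 : T true a (a * b) = 0 := by
      have := DFunLike.congr_fun (ha.2 true true [] (by simp)) b
      simpa [ap_mul, ap_zero] using this
    change T true (a * b) (a * b) = 0
    rw [opL h a b, ap_sub, ap_add, ap_mul, ap_mul, ap_mul, z1, z2, z3]
    simp
  · intro t t' w hw
    have key : ∀ t t', (1 : AddMonoid.End A) * T t (a * b) * (W w * T t' (a * b) * 1) = 0 := by
      intro t t'
      refine sp h (fun t5 t6 => ?_) (fun t5 t6 => ?_) t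
      · have e : 1 * T t5 a * T t6 b * (W w * T t' (a * b) * 1) =
          T t5 a * T t6 b * W w * T t' (a * b) * 1 := by simp only [mul_assoc, one_mul]
        rw [e]
        refine sp h (fun t7 t8 => ?_) (fun t7 t8 => ?_) t'
        · have := claim2 h hs ha hb w hw t5 t6 t7 t8
          simpa only [mul_assoc, mul_one] using this
        · have := claim1 h hs ha hb w hw t5 t6 t7 t8
          simpa only [mul_assoc, mul_one] using this
      · have e : 1 * T t5 b * T t6 a * (W w * T t' (a * b) * 1) =
          T t5 b * T t6 a * W w * T t' (a * b) * 1 := by simp only [mul_assoc, one_mul]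
        rw [e]
        refine sp h (fun t7 t8 => ?_) (fun t7 t8 => ?_) t'
        · have := claim1 h hs hb ha w hw t5 t6 t7 t8
          simpa only [mul_assoc, mul_one] using this
        · have := claim2 h hs hb ha w hw t5 t6 t7 t8
          simpa only [mul_assoc, mul_one] using this
    have := key t t'
    simpa only [mul_assoc, mul_one, one_mul] using this

end words

end Pool.Agent.Helper99.BD8
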