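import Pool.Agent.Helper99.BD8.Level1b

/-!
Level 1: final results.
-/

set_option autoImplicit false

namespace Pool.Agent.Helper99.BD8

variable {A : Type*} [NonUnitalNonAssocRing A]


section two

variable (h : Alt A) {a b : A} (ha : Y 1 a) (hb : Y 1 b)


include h ha hb

theorem E3 (i j l n : Bool) (u v z : A) :
    (T i a * (T j b * ((T true) u * ((T true) v * (T l a * T n b))))) z = 0 := by
  have p3 := P3' h ha hb u v z
  have g0 : ∀ s : Bool, F0 a (T s b u) v (T n b z) = Pp a b u v z := by
    intro s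
    rw [F0_cyc h ha, FTT0 h ha hb, ← Pp_cyc h ha hb]
  have g1 : ∀ s : Bool, F1 a (T s b u) v (T n b z) = Pp a b u v z := by
    intro s
    rw [F1_cyc h ha, FTT1 h ha hb, ← Pp_cyc h ha hb]
  have g0t := g0 true
  have g0f := g0 false
  have g1t := g1 true
  have g1f := g1 false
  have k1 := E2 h ha hb i true j true l n u v z
  have k2 := E2 h ha hb i false j true l n u v z
  rw [Pp_cyc h ha hb v z u] at k1 k2
  simp only [T_true, T_false] at g0t g0f g1t g1f
  have key : ∀ W0 : AddMonoid.End A, W0 = T i a * (T j b * (T true) u) * (T true) v * T l a * T n b →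
      W0 z = 0 := by
    intro W0 V
    cases j
    · rw [opRL h b u] at V
      (simp only [mul_add, add_mul, mul_sub, sub_mul, neg_mul,
        mul_neg, mul_assoc, neg_neg, neg_zero, add_zero, zero_add, sub_zero, zero_sub, mul_zero, zero_mul,
        ha.zz, ha.zz', ha.z1, ha.z1', hb.zz, hb.zz', hb.z1, hb.z1',
        f_gen h ha, f_gen' h ha, FF] at V)
      have V2 := DFunLike.congr_fun V z
      cases i <;> cases l <;>
        simp only [FF, ap_add, ap_mul, ap_neg, ap_sub, add_mul, sub_mul, neg_mul, g0t, g0f, g1t, g1f, T_true, T_false] at V2 k1 k2 <;>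
        rw [V2] <;> (try rw [k1]) <;> (try rw [k2]) <;> first | abel1 | (linear_combination (norm := abel1) p3) | (linear_combination (norm := abel1) -p3)
    · rw [swLL h b u] at V
      (simp only [mul_add, add_mul, mul_sub, sub_mul, neg_mul,
        mul_neg, mul_assoc, neg_neg, neg_zero, add_zero, zero_add, sub_zero, zero_sub, mul_zero, zero_mul,
        ha.zz, ha.zz', ha.z1, ha.z1', hb.zz, hb.zz', hb.z1, hb.z1',
        f_gen h ha, f_gen' h ha, FF] at V)
      have V2 := DFunLike.congr_fun V z
      cases i <;> cases l <;>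
        simp only [FF, ap_add, ap_mul, ap_neg, ap_sub, add_mul, sub_mul, neg_mul, g0t, g0f, g1t, g1f, T_true, T_false] at V2 k1 <;>
        rw [V2] <;> (try rw [k1]) <;> first | abel1 | (linear_combination (norm := abel1) p3) | (linear_combination (norm := abel1) -p3)
  exact key _ (by noncomm_ring)


theorem E3op (i j l n : Bool) (u v : A) :
    T i a * (T j b * ((T true) u * ((T true) v * (T l a * T n b)))) = 0 := by
  ext z; exact E3 h ha hb i j l n u v z

theorem F0_ab (u v : A) : F0 (a * b) u v = - Pp a b u v := by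
  have p3 := P3 h ha hb u v
  have V : F0 (a * b) u v = (T true) (a * b) * ((T true) u * ((T true) v * (T true) (a * b))) := rfl
  rw [opL h a b] at V
  (simp only [mul_add, add_mul, mul_sub, sub_mul, neg_mul,
        mul_neg, mul_assoc, neg_neg, neg_zero, add_zero, zero_add, sub_zero, zero_sub, mul_zero, zero_mul,
        ha.zz, ha.zz', ha.z1, ha.z1', hb.zz, hb.zz', hb.z1, hb.z1',
        f_gen h ha, f_gen' h ha, f_gen h hb, f_gen' h hb, FF] at V)
  have sy := Pp_symm h ha hb u v
  simp only [PF0 h ha hb, PF1 h ha hb, PF0 h hb ha, PF1 h hb ha, E3op h ha hb, E3op h hb ha, ← sy] at V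
  rw [V]
  linear_combination (norm := abel1) -p3

theorem F1_ab (u v : A) : F1 (a * b) u v = - Pp a b u v := by
  have p3 := P3 h ha hb u v
  have V : F1 (a * b) u v = (T true) (a * b) * ((T true) u * ((T true) v * (T false) (a * b))) := rfl
  rw [opL h a b, opR h a b] at V
  (simp only [mul_add, add_mul, mul_sub, sub_mul, neg_mul,
        mul_neg, mul_assoc, neg_neg, neg_zero, add_zero, zero_add, sub_zero, zero_sub, mul_zero, zero_mul,
        ha.zz, ha.zz', ha.z1, ha.z1', hb.zz, hb.zz', hb.z1, hb.z1',
        f_gen h ha, f_gen' h ha, f_gen h hb, f_gen' h hb, FF] at V)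
  have sy := Pp_symm h ha hb u v
  simp only [PF0 h ha hb, PF1 h ha hb, PF0 h hb ha, PF1 h hb ha, E3op h ha hb, E3op h hb ha, ← sy] at V
  rw [V]
  linear_combination (norm := abel1) 2 • p3

theorem F_Tab (t : Bool) (u v : A) :
    F0 (T t a b) u v = - Pp a b u v ∧ F1 (T t a b) u v = - Pp a b u v := by
  cases t
  · refine ⟨?_, ?_⟩
    · rw [T_false, F0_ab h hb ha, Pp_symm h hb ha]
    · rw [T_false, F1_ab h hb ha, Pp_symm h hb ha]
  · exact ⟨F0_ab h ha hb u v, F1_ab h ha hb u v⟩

end two

theorem Y1_T (h : Alt A) {a b : A} (ha : Y 1 a) (hb : Y 1 b) (t : Bool) : Y 1 (T t a b) := by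
  have := level0_mul h ha (hb.le (by omega))
  cases t
  · exact this.2
  · exact this.1

theorem level1_mul (h : Alt A) {a b : A} (ha : Y 2 a) (hb : Y 1 b) :
    Y 2 (a * b) ∧ Y 2 (b * a) := by
  obtain ⟨ha1, hF⟩ := (Y2_iff h a).mp ha
  have hP : ∀ u v, Pp a b u v = 0 := by
    intro u v
    rw [Pp_symm h ha1 hb]
    simp [Pp, (hF u v).1]
  constructor
  · refine (Y2_iff h _).mpr ⟨Y1_T h ha1 hb true, fun u v => ?_⟩
    have := F_Tab h ha1 hb true u v
    rw [hP, neg_zero] at this
    exact this
  · refine (Y2_iff h _).mpr ⟨Y1_T h ha1 hb false, fun u v => ?_⟩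
    have := F_Tab h ha1 hb false u v
    rw [hP, neg_zero] at this
    exact this

/-- `c = a (x (y (T_a z)))` with `a, x, y, z` in `Y 1` lies in `Y 2` -/
theorem level1_c (h : Alt A) {a x y z : A} (ha : Y 1 a) (hx : Y 1 x) (hy : Y 1 y) (hz : Y 1 z)
    (t : Bool) : Y 2 (a * (x * (y * (T t a z)))) := by
  have h3 := Y1_T h ha hz t
  have h2 := Y1_T h hy h3 true
  have h1 := Y1_T h hx h2 true
  have hP : ∀ u v, Pp a (x * (y * (T t a z))) u v = 0 := by
    intro u v
    have e1 := (F_Tab h hx h2 true u v).1
    have e2 := (F_Tab h hy h3 true u v).1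
    have e3 := (F_Tab h ha hz t u v).1
    simp only [T_true] at e1 e2
    have a1 : (T true) y * (Pp a z u v * (T true) y) = Pp a y (z * u) (z * v) := by
      have e := FTT0 h ha hz true true u v
      simp only [T_true] at e
      rw [← e, Pp_symm h ha hy]; rfl
    have a2 : (T true) x * (Pp a y (z * u) (z * v) * (T true) x) = Pp a x (y * (z * u)) (y * (z * v)) := by
      have e := FTT0 h ha hy true true (z * u) (z * v)
      simp only [T_true] at e
      rw [← e, Pp_symm h ha hx]; rfl
    have g1 : Pp y (T t a z) u v = - Pp a y (z * u) (z * v) := by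
      have : Pp y (T t a z) u v = (T true) y * (F0 (T t a z) u v * (T true) y) := rfl
      rw [this, e3, ← a1]; simp
    have g2 : Pp x (y * (T t a z)) u v = Pp a x (y * (z * u)) (y * (z * v)) := by
      have : Pp x (y * (T t a z)) u v = (T true) x * (F0 (y * (T t a z)) u v * (T true) x) := rfl
      rw [this, e2, g1, neg_neg, a2]
    have : Pp a (x * (y * (T t a z))) u v = (T true) a * (F0 (x * (y * (T t a z))) u v * (T true) a) := rfl
    rw [this, e1, g2]
    have e5 : Pp a x (y * (z * u)) (y * (z * v)) = (T true) a * (F0 x (y * (z * u)) (y * (z * v)) * (T true) a) := rfl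
    rw [e5, neg_mul, mul_neg, mul_assoc, ha.zz']
    simp
  refine (Y2_iff h _).mpr ⟨Y1_T h ha h1 true, fun u v => ?_⟩
  have := F_Tab h ha h1 true u v
  simp only [T_true] at this
  rw [hP, neg_zero] at this
  exact this

theorem F0_neg (a x y : A) : F0 a (-x) y = - F0 a x y := by
  simp only [F0, Tneg, neg_mul, mul_neg]
theorem F1_neg (a x y : A) : F1 a (-x) y = - F1 a x y := by
  simp only [F1, Tneg, neg_mul, mul_neg]
theorem F0_zero (a y : A) : F0 a 0 y = 0 := by
  simp only [F0, Tzero, zero_mul, mul_zero]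
theorem F1_zero (a y : A) : F1 a 0 y = 0 := by
  simp only [F1, Tzero, zero_mul, mul_zero]

/-- vanishing of a skew trilinear form on generators implies vanishing -/
theorem level1_exists (h : Alt A) (hc : AddSubgroup.closure {a : A | Y 1 a} = ⊤)
    (hne : ∃ a : A, a ≠ 0 ∧ Y 1 a) : ∃ a : A, a ≠ 0 ∧ Y 2 a := by
  by_cases hall : ∀ a x y z : A, ∀ t : Bool, Y 1 a → Y 1 x → Y 1 y → Y 1 z →
      a * (x * (y * (T t a z))) = 0
  · obtain ⟨a, ha, hY⟩ := hne
    refine ⟨a, ha, (Y2_iff h a).mpr ⟨hY, ?_⟩⟩
    have top : ∀ y : A, y ∈ AddSubgroup.closure {a : A | Y 1 a} := by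
      intro y; rw [hc]; trivial
    -- F0
    have s0 : ∀ x, Y 1 x → ∀ y, Y 1 y → ∀ z, F0 a x y z = 0 := by
      intro x hx y hy z
      induction top z using AddSubgroup.closure_induction with
      | mem z hz => exact hall a x y z true hY hx hy hz
      | zero => exact map_zero _
      | add y z _ _ h1 h2 => rw [map_add, h1, h2, add_zero]
      | neg y _ h1 => rw [map_neg, h1, neg_zero]
    have s1 : ∀ x, Y 1 x → ∀ y, Y 1 y → ∀ z, F1 a x y z = 0 := by
      intro x hx y hy z
      induction top z using AddSubgroup.closure_induction with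
      | mem z hz => exact hall a x y z false hY hx hy hz
      | zero => exact map_zero _
      | add y z _ _ h1 h2 => rw [map_add, h1, h2, add_zero]
      | neg y _ h1 => rw [map_neg, h1, neg_zero]
    have r0 : ∀ x, Y 1 x → ∀ y z, F0 a x y z = 0 := by
      intro x hx y z
      rw [F0_s12 h hY, ap_neg]
      induction top y using AddSubgroup.closure_induction with
      | mem y hy => rw [← ap_neg, ← F0_s12 h hY]; exact s0 x hx y hy z
      | zero => rw [F0_zero]; simp [ap_zero]
      | add y z _ _ h1 h2 => rw [F0_add, ap_add, neg_add, h1, h2, add_zero]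
      | neg y _ h1 => rw [F0_neg, ap_neg, h1, neg_zero]
    have r1 : ∀ x, Y 1 x → ∀ y z, F1 a x y z = 0 := by
      intro x hx y z
      rw [F1_s12 h hY, ap_neg]
      induction top y using AddSubgroup.closure_induction with
      | mem y hy => rw [← ap_neg, ← F1_s12 h hY]; exact s1 x hx y hy z
      | zero => rw [F1_zero]; simp [ap_zero]
      | add y z _ _ h1 h2 => rw [F1_add, ap_add, neg_add, h1, h2, add_zero]
      | neg y _ h1 => rw [F1_neg, ap_neg, h1, neg_zero]
    intro x y
    constructor
    · ext z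
      induction top x using AddSubgroup.closure_induction with
      | mem x hx => exact r0 x hx y z
      | zero => rw [F0_zero]
      | add x x' _ _ h1 h2 => rw [F0_add, ap_add, h1, h2]; simp [ap_zero]
      | neg x _ h1 => rw [F0_neg, ap_neg, h1]; simp [ap_zero]
    · ext z
      induction top x using AddSubgroup.closure_induction with
      | mem x hx => exact r1 x hx y z
      | zero => rw [F1_zero]
      | add x x' _ _ h1 h2 => rw [F1_add, ap_add, h1, h2]; simp [ap_zero]
      | neg x _ h1 => rw [F1_neg, ap_neg, h1]; simp [ap_zero]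
  · push Not at hall
    obtain ⟨a, x, y, z, t, ha, hx, hy, hz, hne⟩ := hall
    exact ⟨_, hne, level1_c h ha hx hy hz t⟩

end Pool.Agent.Helper99.BD8
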