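import Mathlib
import Pool.Agent.Helper1.BD8.M2
import Pool.Agent.Helper1.BD8.Azd
import Pool.Agent.Helper99.BD8.Level1c

/-!
Existence of sandwiches, assuming the doubling step.
-/

set_option autoImplicit false

namespace Pool.Agent.Helper99.BD8

open Pool.Agent.Helper1.BD8 (map_W map_T top_of_gen mul_mem_closure pw pw_succ exists_azd)

section general

variable {A : Type*} [NonUnitalNonAssocRing A]

theorem Y.mapG {s : ℕ} {a : A} (ha : Y s a) (g : RingAut A) : Y s (g a) := by
  refine ⟨by rw [← map_mul, ha.1, map_zero], fun t t' w hw => ?_⟩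
  ext z
  have e : (T t (g a) * W w * T t' (g a)) z =
      g ((T t a * W (w.map fun p => (p.1, g.symm p.2)) * T t' a) (g.symm z)) := by
    simp only [ap_mul]
    rw [map_T, map_W, map_T, List.map_map]
    rw [show ((fun p : Bool × A => (p.1, g p.2)) ∘ fun p : Bool × A => (p.1, g.symm p.2)) = id from by
      funext p; simp]
    rw [List.map_id]
    congr 3
    symm
    exact RingEquiv.apply_symm_apply g z
  rw [e, ha.2 t t' _ (by simpa using hw)]
  simp [ap_zero]

/-- words containing `T a` -/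
def MA (a : A) : AddSubgroup (AddMonoid.End A) :=
  AddSubgroup.closure {f | ∃ (p q : List (Bool × A)) (t : Bool), f = W p * T t a * W q}

theorem MA_left {a : A} {f : AddMonoid.End A} (hf : f ∈ MA a) (t : Bool) (x : A) :
    T t x * f ∈ MA a := by
  unfold MA at hf
  induction hf using AddSubgroup.closure_induction with
  | mem f hf =>
    obtain ⟨p, q, t', rfl⟩ := hf
    refine AddSubgroup.subset_closure ⟨(t, x) :: p, q, t', ?_⟩
    rw [W_cons]; simp only [mul_assoc]
  | zero => rw [mul_zero]; exact AddSubgroup.zero_mem _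
  | add _ _ _ _ h1 h2 => rw [mul_add]; exact AddSubgroup.add_mem _ h1 h2
  | neg _ _ h1 => rw [mul_neg]; exact AddSubgroup.neg_mem _ h1

theorem MA_right {a : A} {f : AddMonoid.End A} (hf : f ∈ MA a) (t : Bool) (x : A) :
    f * T t x ∈ MA a := by
  unfold MA at hf
  induction hf using AddSubgroup.closure_induction with
  | mem f hf =>
    obtain ⟨p, q, t', rfl⟩ := hf
    refine AddSubgroup.subset_closure ⟨p, q ++ [(t, x)], t', ?_⟩
    rw [W_append]; simp [mul_assoc]
  | zero => rw [zero_mul]; exact AddSubgroup.zero_mem _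
  | add _ _ _ _ h1 h2 => rw [add_mul]; exact AddSubgroup.add_mem _ h1 h2
  | neg _ _ h1 => rw [neg_mul]; exact AddSubgroup.neg_mem _ h1

theorem MA_W (h : Alt A) (a : A) (v : List (Bool × A)) : ∀ t : Bool, T t (W v a) ∈ MA a := by
  induction v with
  | nil =>
    intro t
    exact AddSubgroup.subset_closure ⟨[], [], t, by simp⟩
  | cons p v ih =>
    obtain ⟨s, x⟩ := p
    intro t
    rw [W_cons, ap_mul]
    cases s <;> cases t
    · rw [T_false, opR h]
      exact AddSubgroup.add_mem _ (AddSubgroup.sub_mem _ (MA_left (ih _) _ _) (MA_right (ih _) _ _))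
        (MA_left (ih _) _ _)
    · rw [T_false, opL h]
      exact AddSubgroup.sub_mem _ (AddSubgroup.add_mem _ (MA_right (ih _) _ _) (MA_right (ih _) _ _))
        (MA_left (ih _) _ _)
    · rw [T_true, opR h]
      exact AddSubgroup.add_mem _ (AddSubgroup.sub_mem _ (MA_right (ih _) _ _) (MA_left (ih _) _ _))
        (MA_right (ih _) _ _)
    · rw [T_true, opL h]
      exact AddSubgroup.sub_mem _ (AddSubgroup.add_mem _ (MA_left (ih _) _ _) (MA_left (ih _) _ _))
        (MA_right (ih _) _ _)

theorem sandwich_of_Y (h : Alt A) {a : A} (ha : ∀ s, Y s a) : Sandwich a := by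
  have key : ∀ (t : Bool) (w : List (Bool × A)), T t a (W w a) = 0 := by
    intro t w
    rcases List.eq_nil_or_concat w with rfl | ⟨w', ⟨s, x⟩, rfl⟩
    · cases t <;> simpa using (ha 0).1
    · rw [List.concat_eq_append, W_append]
      have e : W [(s, x)] a = T (!s) a x := by cases s <;> simp
      rw [ap_mul, e]
      have := (ha w'.length).2 t (!s) w' le_rfl
      exact DFunLike.congr_fun this x
  intro v w
  have h1 : W v a * W w a = T true (W v a) (W w a) := rfl
  rw [h1]
  have h2 := MA_W h a v true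
  generalize T true (W v a) = f at h2
  unfold MA at h2
  induction h2 using AddSubgroup.closure_induction with
  | mem f hf =>
    obtain ⟨p, q, t', rfl⟩ := hf
    rw [ap_mul, ap_mul, ← ap_mul (W q) (W w), ← W_append, key, map_zero]
  | zero => rfl
  | add f g _ _ h1 h2 => rw [ap_add, h1, h2, add_zero]
  | neg f _ h1 => rw [ap_neg, h1, neg_zero]

/-- `closure P` is everything as soon as `P` absorbs a generating set `Q`. -/
theorem top_of_absorb {G : Subgroup (RingAut A)} (hs : GSimple G) {P Q : A → Prop}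
    (hQ : AddSubgroup.closure {a : A | Q a} = ⊤)
    (hmul : ∀ a b, P a → Q b → P (a * b) ∧ P (b * a))
    (hG : ∀ g ∈ G, ∀ a, P a → P (g a)) (hne : ∃ a : A, a ≠ 0 ∧ P a) :
    AddSubgroup.closure {a : A | P a} = ⊤ := by
  have hid : IsIdl (AddSubgroup.closure {a : A | P a}) := by
    intro a ha x
    have hx : x ∈ AddSubgroup.closure {a : A | Q a} := by rw [hQ]; trivial
    exact ⟨mul_mem_closure (fun a ha b hb => AddSubgroup.subset_closure (hmul a b ha hb).1) ha hx,
      mul_mem_closure (fun b hb a ha => AddSubgroup.subset_closure (hmul a b ha hb).2) hx ha⟩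
  have hG' : ∀ g ∈ G, ∀ a ∈ AddSubgroup.closure {a : A | P a},
      g a ∈ AddSubgroup.closure {a : A | P a} := by
    intro g hg a ha
    induction ha using AddSubgroup.closure_induction with
    | mem a ha => exact AddSubgroup.subset_closure (hG g hg a ha)
    | zero => rw [map_zero]; exact AddSubgroup.zero_mem _
    | add y z _ _ h1 h2 => rw [map_add]; exact AddSubgroup.add_mem _ h1 h2
    | neg y _ h1 => rw [map_neg]; exact AddSubgroup.neg_mem _ h1
  rcases hs _ hid hG' with h | h
  · exfalso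
    obtain ⟨a, ha0, ha⟩ := hne
    apply ha0
    have : a ∈ AddSubgroup.closure {a : A | P a} := AddSubgroup.subset_closure ha
    rw [h] at this
    exact AddSubgroup.mem_bot.1 this
  · exact h

theorem ne_of_top {P : A → Prop} (hP : AddSubgroup.closure {a : A | P a} = ⊤)
    (hne : ∃ b : A, b ≠ 0) : ∃ a : A, a ≠ 0 ∧ P a := by
  by_contra hcon
  push Not at hcon
  obtain ⟨b, hb⟩ := hne
  apply hb
  have hb' : b ∈ AddSubgroup.closure {a : A | P a} := by rw [hP]; trivial
  refine Pool.Agent.Helper1.BD8.closure_eq_zero (fun a ha => ?_) hb'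
  by_contra ha0
  exact hcon a ha0 ha

theorem double_top (hp : Perf A) {P P' : A → Prop}
    (hP : AddSubgroup.closure {a : A | P a} = ⊤)
    (hmul : ∀ a b, P a → P b → P' (a * b)) :
    AddSubgroup.closure {a : A | P' a} = ⊤ := by
  rw [eq_top_iff]
  rw [← (show AddSubgroup.closure {z : A | ∃ u v : A, u * v = z} = ⊤ from hp)]
  rw [AddSubgroup.closure_le]
  rintro z ⟨u, v, rfl⟩
  refine mul_mem_closure (S1 := {a : A | P a}) (S2 := {a : A | P a}) (S3 := {a : A | P' a})
    (fun a ha b hb => AddSubgroup.subset_closure (hmul a b ha hb)) ?_ ?_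
  · rw [hP]; trivial
  · rw [hP]; trivial

theorem Y0_of (halt : Alt A) {e : A} (hee : e * e = 0) (hex : ∀ x, (e * x) * e = 0) : Y 0 e := by
  refine ⟨hee, fun t t' w hw => ?_⟩
  have hw0 : w = [] := List.eq_nil_of_length_eq_zero (by omega)
  subst hw0
  ext z
  have hf : e * (z * e) = 0 := by
    have h7 : e * z * e + z * e * e = e * (z * e) + z * (e * e) := altL halt e z e
    rw [hex z, (halt e z).2, hee, mul_zero, add_zero, add_zero] at h7
    exact h7.symm
  cases t <;> cases t'
  · simp only [ap_mul, W_nil, mul_one, T_false, ap_zero]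
    rw [(halt e z).2, hee, mul_zero]
  · simp only [ap_mul, W_nil, mul_one, T_false, T_true, ap_zero]
    exact hex z
  · simp only [ap_mul, W_nil, mul_one, T_false, T_true, ap_zero]
    exact hf
  · simp only [ap_mul, W_nil, mul_one, T_true, ap_zero]
    rw [← (halt e z).1, hee, zero_mul]

end general

theorem bounded_index {B : Type} [NonUnitalNonAssocRing B] {G : Subgroup (RingAut B)}
    (hn : Nil B) (hG : OrbFin G) : ∃ n : ℕ, ∀ x : B, pw n x = 0 := by
  obtain ⟨F, hF, hFG⟩ := hG 1
  have hn' : ∀ x : B, ∃ n : ℕ, pw n x = 0 := hn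
  choose c hc using hn'
  obtain ⟨C, hC⟩ : ∃ C : ℕ, ∀ f ∈ F, c (f 0) ≤ C := by
    obtain ⟨C, hC⟩ := (hF.image fun f => c (f 0)).bddAbove
    exact ⟨C, fun f hf => hC (Set.mem_image_of_mem _ hf)⟩
  have hmono : ∀ (x : B) (m k : ℕ), pw m x = 0 → pw (m + k) x = 0 := by
    intro x m k h
    induction k with
    | zero => exact h
    | succ k ih => rw [← add_assoc, pw_succ, ih, zero_mul]
  have hmap : ∀ (g : RingAut B) (x : B) (m : ℕ), pw m (g x) = g (pw m x) := by
    intro g x m
    induction m with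
    | zero => rfl
    | succ m ih => rw [pw_succ, pw_succ, ih, map_mul]
  refine ⟨C, fun x => ?_⟩
  obtain ⟨g, hg, f, hf, hx⟩ := hFG fun _ => x
  have hx0 : x = g (f 0) := hx 0
  rw [hx0, hmap]
  obtain ⟨k, hk⟩ := Nat.exists_eq_add_of_le (hC f hf)
  rw [hk, hmono _ _ _ (hc _), map_zero]

theorem hex_of_doubling
    (hdoub : ∀ (B : Type) [NonUnitalNonAssocRing B], Alt B → ∀ s : ℕ, 2 ≤ s → ∀ a b : B,
      Y s a → Y s b → Y (s + 1) (a * b))
    (B : Type) [NonUnitalNonAssocRing B] (G : Subgroup (RingAut B)) (halt : Alt B) (hnil : Nil B)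
    (hG : OrbFin G) (hs : GSimple G) (hp : Perf B) (hne : ∃ b : B, b ≠ 0) :
    ∃ u : B, u ≠ 0 ∧ Sandwich u := by
  -- level 0
  obtain ⟨n, hn⟩ := bounded_index hnil hG
  obtain ⟨e, he, hee, hex⟩ := exists_azd halt n hn hne
  have he0 : Y 0 e := Y0_of halt hee hex
  have hinv : ∀ s : ℕ, ∀ g ∈ G, ∀ a : B, Y s a → Y s (g a) := fun s g _ a ha => ha.mapG g
  have h0 : AddSubgroup.closure {a : B | Y 0 a} = ⊤ := by
    refine top_of_absorb hs (Q := fun _ => True) ?_ ?_ (hinv 0) ⟨e, he, he0⟩
    · rw [eq_top_iff]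
      intro x _
      exact AddSubgroup.subset_closure trivial
    · intro a b ha _
      exact Y0_mul halt ha b
  have h1 : AddSubgroup.closure {a : B | Y 1 a} = ⊤ :=
    top_of_absorb hs h0 (fun a b ha hb => level0_mul halt ha hb) (hinv 1)
      (level0_exists halt h0 ⟨e, he, he0⟩)
  have h2 : AddSubgroup.closure {a : B | Y 2 a} = ⊤ :=
    top_of_absorb hs h1 (fun a b ha hb => level1_mul halt ha hb) (hinv 2)
      (level1_exists halt h1 (ne_of_top h1 hne))
  have hall : ∀ k : ℕ, AddSubgroup.closure {a : B | Y (k + 2) a} = ⊤ := by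
    intro k
    induction k with
    | zero => exact h2
    | succ k ih =>
      have := double_top (P' := Y (k + 2 + 1)) hp ih
        (fun a b ha hb => hdoub B halt (k + 2) (by omega) a b ha hb)
      rw [show k + 1 + 2 = k + 2 + 1 by omega]
      exact this
  -- stabilization
  obtain ⟨F, hF, hFG⟩ := hG 1
  have hf : ∀ k : ℕ, ∃ f ∈ F, f 0 ≠ 0 ∧ Y (k + 2) (f 0) := by
    intro k
    obtain ⟨a, ha, hYa⟩ := ne_of_top (hall k) hne
    obtain ⟨g, hg, f, hf, hx⟩ := hFG fun _ => a
    have hx0 : a = g (f 0) := hx 0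
    refine ⟨f, hf, ?_, ?_⟩
    · intro h
      apply ha
      rw [hx0, h, map_zero]
    · have h3 : f 0 = g.symm a := by rw [hx0]; exact (RingEquiv.symm_apply_apply g _).symm
      rw [h3]
      exact hYa.mapG g.symm
  choose f hfF hf0 hfY using hf
  obtain ⟨f0, hf0F, hinf⟩ : ∃ f0 ∈ F, ∀ N : ℕ, ∃ k, N ≤ k ∧ f k = f0 := by
    by_contra hcon
    push Not at hcon
    choose! N hN using hcon
    obtain ⟨C, hC⟩ : ∃ C : ℕ, ∀ f ∈ F, N f ≤ C := by
      obtain ⟨C, hC⟩ := (hF.image N).bddAbove
      exact ⟨C, fun f hf => hC (Set.mem_image_of_mem _ hf)⟩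
    exact hN (f C) (hfF C) C (hC _ (hfF C)) rfl
  refine ⟨f0 0, ?_, ?_⟩
  · obtain ⟨k, _, hk⟩ := hinf 0
    rw [← hk]
    exact hf0 k
  · apply sandwich_of_Y halt
    intro s
    obtain ⟨k, hk1, hk2⟩ := hinf s
    rw [← hk2]
    exact (hfY k).le (by omega)

end Pool.Agent.Helper99.BD8
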