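import Pool.Agent.Helper99.BD8.Levels0

/-!
Level 0: elements `a` with `a² = 0`, `(a x) a = 0`.
-/

set_option autoImplicit false

namespace Pool.Agent.Helper99.BD8

variable {A : Type*} [NonUnitalNonAssocRing A]


theorem Y.zz {s : ℕ} {a : A} (ha : Y s a) (t t' : Bool) : T t a * T t' a = 0 := by
  have := ha.2 t t' [] (by simp)
  simpa using this

theorem Y.sq {s : ℕ} {a : A} (ha : Y s a) : a * a = 0 := ha.1

theorem Y.le {s s' : ℕ} {a : A} (ha : Y s a) (hs : s' ≤ s) : Y s' a :=
  ⟨ha.1, fun t t' w hw => ha.2 t t' w (hw.trans hs)⟩

/-- cyclic symmetry of the associator -/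
theorem altC (h : Alt A) (x y z : A) : x * y * z - x * (y * z) = y * z * x - y * (z * x) := by
  have h1 := sub_eq_zero.mpr (altL h x y z)
  have h2 := sub_eq_zero.mpr (altR h x z y)
  rw [← sub_eq_zero]
  have : x * y * z - x * (y * z) - (y * z * x - y * (z * x)) =
    (x * y * z + y * x * z - (x * (y * z) + y * (x * z))) -
    (y * x * z + y * z * x - (y * (x * z) + y * (z * x))) := by abel
  rw [this, h1, h2]; simp

section table

variable (h : Alt A) {a : A} (ha : Y 0 a)

/-- `Q a x z = a (x (z a))` -/
def Q (a x : A) : AddMonoid.End A := (T true) a * (T true) x * (T false) a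

theorem Q_def (a x : A) : (T true) a * (T true) x * (T false) a = Q a x := rfl

include h ha

theorem q_lrl (x : A) : (T true) a * (T false) x * (T true) a = Q a x := by
  have h1 := opD h a x
  linear_combination (norm := (simp only [← Q_def]; noncomm_ring)) (-(T true) a) * h1 +
    ha.zz true true * (T false) x - ha.zz true false * (T true) x

theorem q_rll (x : A) : (T false) a * (T true) x * (T true) a = Q a x := by
  have h1 := opD h a x
  rw [← q_lrl h ha x]
  linear_combination (norm := noncomm_ring) (-h1) * (T true) a
    - (T false) x * ha.zz true true + (T true) x * ha.zz false true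

theorem q_rlr' (x : A) : (T false) a * (T true) x * (T false) a = (T true) a * (T false) x * (T false) a := by
  have h1 := opD h a x
  linear_combination (norm := noncomm_ring) (-h1) * (T false) a
    - (T false) x * ha.zz true false + (T true) x * ha.zz false false

theorem q_rrl' (x : A) : (T false) a * (T false) x * (T true) a = (T true) a * (T false) x * (T false) a := by
  have h1 := opD h a x
  rw [← q_rlr' h ha x]
  linear_combination (norm := noncomm_ring) (-(T false) a) * h1 +
    ha.zz false true * (T false) x - ha.zz false false * (T true) x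

theorem q_skew (x z : A) : Q a x z = - Q a z x := by
  have h1 := altR h z a x
  have h2 : T true a ((x * z + z * x) * a) = 0 := by
    have := ha.zz true false
    have := DFunLike.congr_fun this (x * z + z * x)
    simpa [ap_mul] using this
  have h3 := altR h z x a
  -- (x z) a + (x a) z = x (z a) + x (a z)
  have h4 := altL h x z a
  -- (x z) a + (z x) a = x (z a) + z (x a)
  have h5 : T true a (x * (z * a) + z * (x * a)) = 0 := by
    rw [← h4, ← add_mul]; exact h2
  rw [map_add] at h5
  exact eq_neg_of_add_eq_zero_left h5

theorem q_skew' (x z : A) : ((T false) a * (T true) x * (T false) a) z = - ((T false) a * (T true) z * (T false) a) x := by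
  have h2 : T false a ((x * z + z * x) * a) = 0 := by
    have := ha.zz false false
    have := DFunLike.congr_fun this (x * z + z * x)
    simpa [ap_mul] using this
  have h4 := altL h x z a
  have h5 : T false a (x * (z * a) + z * (x * a)) = 0 := by
    rw [← h4, ← add_mul]; exact h2
  rw [map_add] at h5
  exact eq_neg_of_add_eq_zero_left h5

theorem q_exch (t : Bool) (x z : A) :
    (T t a * (T false) x * (T false) a) z = (T t a * (T true) z * (T true) a) x - (T t a * (T true) x * (T false) a) z := by
  have h1 := altC h x z a
  -- (x z) a - x (z a) = (z a) x - z (a x)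
  have h2 : T t a ((x * z) * a) = 0 := by
    have := ha.zz t false
    have := DFunLike.congr_fun this (x * z)
    simpa [ap_mul] using this
  have h3 := congrArg (T t a) h1
  simp only [map_sub] at h3
  rw [h2] at h3
  simp only [ap_mul, T_true, T_false] at *
  rw [← sub_eq_zero] at h3 ⊢
  rw [← neg_eq_zero, ← h3]; abel

theorem q_all (x : A) : (T true) a * (T true) x * (T true) a = 0 ∧ (T false) a * (T false) x * (T false) a = 0 ∧
    (T true) a * (T false) x * (T false) a = - Q a x := by
  have e1 : ∀ x z : A, ((T true) a * (T false) x * (T false) a) z = - ((T true) a * (T false) z * (T false) a) x := by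
    intro x z
    rw [← q_rlr' h ha x, ← q_rlr' h ha z]; exact q_skew' h ha x z
  have e2 : (T true) a * (T true) x * (T true) a = - ((T true) a * (T false) x * (T false) a) - Q a x := by
    ext z
    have h1 := q_exch h ha true z x
    rw [Q_def, e1 z x, q_skew h ha z x] at h1
    rw [ap_sub, ap_neg]
    rw [eq_sub_iff_add_eq] at h1
    rw [← h1]; abel
  have e3 : (T false) a * (T false) x * (T false) a = - ((T true) a * (T false) x * (T false) a) - Q a x := by
    ext z
    have h1 := q_exch h ha false x z
    rw [q_rll h ha z, q_rlr' h ha x, q_skew h ha z x] at h1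
    rw [ap_sub, ap_neg, h1]; abel
  have e4 : (a * x) * a = 0 := by
    have := DFunLike.congr_fun (ha.zz false true) x
    simpa [ap_mul] using this
  have e5 := opL h (a * x) a
  rw [e4, Tzero, opL h a x] at e5
  have e6 : (T true) a * (T false) x * (T false) a = - Q a x := by
    have f1 := q_lrl h ha x
    have f2 := q_rrl' h ha x
    linear_combination (norm := (simp only [← Q_def]; noncomm_ring)) -e5 - f1 - e2 - f2
      + (T false) x * ha.zz true false + (T false) x * ha.zz true true + ha.zz false true * (T false) x
      + ha.zz false true * (T true) x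
  refine ⟨?_, ?_, e6⟩
  · rw [e2, e6]; simp
  · rw [e3, e6]; simp

theorem q_lll (x : A) : (T true) a * (T true) x * (T true) a = 0 := (q_all h ha x).1
theorem q_rrr (x : A) : (T false) a * (T false) x * (T false) a = 0 := (q_all h ha x).2.1
theorem q_lrr (x : A) : (T true) a * (T false) x * (T false) a = - Q a x := (q_all h ha x).2.2
theorem q_rlr (x : A) : (T false) a * (T true) x * (T false) a = - Q a x := by rw [q_rlr' h ha, q_lrr h ha]
theorem q_rrl (x : A) : (T false) a * (T false) x * (T true) a = - Q a x := by rw [q_rrl' h ha, q_lrr h ha]

end table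

end Pool.Agent.Helper99.BD8
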