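import Pool.Agent.Helper99.BD8.Level0

/-!
Level 0, two elements `a, b` with `a² = b² = 0`, `(a x) a = (b x) b = 0`.
-/

set_option autoImplicit false

namespace Pool.Agent.Helper99.BD8

variable {A : Type*} [NonUnitalNonAssocRing A]


section ops

variable (h : Alt A) (x y : A)
include h

theorem swLL : T true x * T true y = - (T true y * T true x) + T true (x * y) + T true (y * x) := by
  have := opLL h x y
  rw [add_assoc, ← this]; abel

theorem swRR : T false x * T false y = - (T false y * T false x) + T false (x * y) + T false (y * x) := by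
  have := opRR h x y
  rw [add_assoc, ← this]; abel

end ops

section assoc

variable (h : Alt A) {a : A} (ha : Y 0 a)
include h ha

omit h in
theorem zz' (t t' : Bool) (w : AddMonoid.End A) : T t a * (T t' a * w) = 0 := by
  rw [← mul_assoc, ha.zz, zero_mul]

theorem t_lll (x : A) : (T true) a * ((T true) x * (T true) a) = 0 := by rw [← mul_assoc, q_lll h ha]
theorem t_llr (x : A) : (T true) a * ((T true) x * (T false) a) = Q a x := by rw [← mul_assoc, Q_def]
theorem t_lrl (x : A) : (T true) a * ((T false) x * (T true) a) = Q a x := by rw [← mul_assoc, q_lrl h ha]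
theorem t_rll (x : A) : (T false) a * ((T true) x * (T true) a) = Q a x := by rw [← mul_assoc, q_rll h ha]
theorem t_lrr (x : A) : (T true) a * ((T false) x * (T false) a) = - Q a x := by rw [← mul_assoc, q_lrr h ha]
theorem t_rlr (x : A) : (T false) a * ((T true) x * (T false) a) = - Q a x := by rw [← mul_assoc, q_rlr h ha]
theorem t_rrl (x : A) : (T false) a * ((T false) x * (T true) a) = - Q a x := by rw [← mul_assoc, q_rrl h ha]
theorem t_rrr (x : A) : (T false) a * ((T false) x * (T false) a) = 0 := by rw [← mul_assoc, q_rrr h ha]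

theorem w_lll (x : A) (w : AddMonoid.End A) : (T true) a * ((T true) x * ((T true) a * w)) = 0 := by
  rw [← mul_assoc, ← mul_assoc, q_lll h ha, zero_mul]
theorem w_llr (x : A) (w : AddMonoid.End A) : (T true) a * ((T true) x * ((T false) a * w)) = Q a x * w := by
  rw [← mul_assoc, ← mul_assoc, Q_def]
theorem w_lrl (x : A) (w : AddMonoid.End A) : (T true) a * ((T false) x * ((T true) a * w)) = Q a x * w := by
  rw [← mul_assoc, ← mul_assoc, q_lrl h ha]
theorem w_rll (x : A) (w : AddMonoid.End A) : (T false) a * ((T true) x * ((T true) a * w)) = Q a x * w := by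
  rw [← mul_assoc, ← mul_assoc, q_rll h ha]
theorem w_lrr (x : A) (w : AddMonoid.End A) : (T true) a * ((T false) x * ((T false) a * w)) = - (Q a x * w) := by
  rw [← mul_assoc, ← mul_assoc, q_lrr h ha, neg_mul]
theorem w_rlr (x : A) (w : AddMonoid.End A) : (T false) a * ((T true) x * ((T false) a * w)) = - (Q a x * w) := by
  rw [← mul_assoc, ← mul_assoc, q_rlr h ha, neg_mul]
theorem w_rrl (x : A) (w : AddMonoid.End A) : (T false) a * ((T false) x * ((T true) a * w)) = - (Q a x * w) := by
  rw [← mul_assoc, ← mul_assoc, q_rrl h ha, neg_mul]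
theorem w_rrr (x : A) (w : AddMonoid.End A) : (T false) a * ((T false) x * ((T false) a * w)) = 0 := by
  rw [← mul_assoc, ← mul_assoc, q_rrr h ha, zero_mul]

end assoc

section two

variable (h : Alt A) {a b : A} (ha : Y 0 a) (hb : Y 0 b)


include h ha hb

theorem aQba_l : (T true) a * Q b a = 0 := by
  linear_combination (norm := (simp only [← Q_def]; noncomm_ring)) (q_lll h ha b) * (T false) b

theorem aQba_r : (T false) a * Q b a = 0 := by
  linear_combination (norm := noncomm_ring) (-q_rrr h ha b) * (T true) b + (T false) a * q_rrl h hb a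

theorem aQba (t : Bool) : T t a * Q b a = 0 := by
  cases t
  · exact aQba_r h ha hb
  · exact aQba_l h ha hb

theorem Qabb_l : Q a b * (T true) b = 0 := by
  linear_combination (norm := (simp only [← Q_def]; noncomm_ring)) (T true) a * q_lrl h hb a
    + aQba_l h ha hb

theorem Qabb_r : Q a b * (T false) b = 0 := by
  linear_combination (norm := (simp only [← Q_def]; noncomm_ring)) (T true) a * q_lrr h hb a
    - aQba_l h ha hb

theorem Qabb (t : Bool) : Q a b * T t b = 0 := by
  cases t
  · exact Qabb_r h ha hb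
  · exact Qabb_l h ha hb

variable (u : A)

theorem eq_o : Q a b * ((T false) u * (T true) b) = (T true) a * Q b (u * a) := by
  have V : (T true) a * ((T true) b * (T false) u) * (T true) a * (T true) b = (T true) a * (T true) b * ((T false) u * (T true) a) * (T true) b := by noncomm_ring
  rw [opLR h b u, opRL h u a] at V
  (simp only [mul_add, add_mul, mul_sub, sub_mul, neg_mul,
        mul_neg, mul_assoc, neg_neg, neg_zero, add_zero, zero_add, sub_zero, zero_sub, mul_zero, zero_mul,
        zz' ha, zz' hb, ha.zz, hb.zz,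
        t_lll h ha, t_llr h ha, t_lrl h ha, t_rll h ha, t_lrr h ha, t_rlr h ha, t_rrl h ha, t_rrr h ha,
        w_lll h ha, w_llr h ha, w_lrl h ha, w_rll h ha, w_lrr h ha, w_rlr h ha, w_rrl h ha, w_rrr h ha,
        t_lll h hb, t_llr h hb, t_lrl h hb, t_rll h hb, t_lrr h hb, t_rlr h hb, t_rrl h hb, t_rrr h hb,
        w_lll h hb, w_llr h hb, w_lrl h hb, w_rll h hb, w_lrr h hb, w_rlr h hb, w_rrl h hb, w_rrr h hb] at V)
  rw [eq_comm, sub_eq_zero] at V
  exact V

theorem eq_dd : Q a b * ((T true) u * (T false) b) = (T false) a * Q b (a * u) := by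
  have V : (T false) a * ((T false) b * (T true) u) * (T false) a * (T false) b = (T false) a * (T false) b * ((T true) u * (T false) a) * (T false) b := by noncomm_ring
  rw [opRL h b u, opLR h u a] at V
  (simp only [mul_add, add_mul, mul_sub, sub_mul, neg_mul,
        mul_neg, mul_assoc, neg_neg, neg_zero, add_zero, zero_add, sub_zero, zero_sub, mul_zero, zero_mul,
        zz' ha, zz' hb, ha.zz, hb.zz,
        t_lll h ha, t_llr h ha, t_lrl h ha, t_rll h ha, t_lrr h ha, t_rlr h ha, t_rrl h ha, t_rrr h ha,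
        w_lll h ha, w_llr h ha, w_lrl h ha, w_rll h ha, w_lrr h ha, w_rlr h ha, w_rrl h ha, w_rrr h ha,
        t_lll h hb, t_llr h hb, t_lrl h hb, t_rll h hb, t_lrr h hb, t_rlr h hb, t_rrl h hb, t_rrr h hb,
        w_lll h hb, w_llr h hb, w_lrl h hb, w_rll h hb, w_lrr h hb, w_rlr h hb, w_rrl h hb, w_rrr h hb] at V)
  linear_combination (norm := noncomm_ring) V

theorem eq_h : - ((T true) a * ((T false) u * Q b a)) + Q a (b * u) * (T true) b + Q a (u * b) * (T true) b = (T true) a * Q b (u * a) := by
  have V : (T true) a * ((T false) b * (T false) u) * (T true) a * (T true) b = (T true) a * (T false) b * ((T false) u * (T true) a) * (T true) b := by noncomm_ring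
  rw [swRR h b u, opRL h u a] at V
  (simp only [mul_add, add_mul, mul_sub, sub_mul, neg_mul,
        mul_neg, mul_assoc, neg_neg, neg_zero, add_zero, zero_add, sub_zero, zero_sub, mul_zero, zero_mul,
        zz' ha, zz' hb, ha.zz, hb.zz,
        t_lll h ha, t_llr h ha, t_lrl h ha, t_rll h ha, t_lrr h ha, t_rlr h ha, t_rrl h ha, t_rrr h ha,
        w_lll h ha, w_llr h ha, w_lrl h ha, w_rll h ha, w_lrr h ha, w_rlr h ha, w_rrl h ha, w_rrr h ha,
        t_lll h hb, t_llr h hb, t_lrl h hb, t_rll h hb, t_lrr h hb, t_rlr h hb, t_rrl h hb, t_rrr h hb,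
        w_lll h hb, w_llr h hb, w_lrl h hb, w_rll h hb, w_lrr h hb, w_rlr h hb, w_rrl h hb, w_rrr h hb] at V)
  linear_combination (norm := noncomm_ring) V

theorem eq_l : (T true) a * ((T false) u * Q b a) - Q a (b * u) * (T true) b - Q a (u * b) * (T true) b =
    Q a b * ((T false) u * (T true) b) - (T true) a * Q b (u * a) - (T true) a * Q b (a * u) := by
  have V : (T true) a * ((T false) b * (T false) u) * (T false) a * (T true) b = (T true) a * (T false) b * ((T false) u * (T false) a) * (T true) b := by noncomm_ring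
  rw [swRR h b u, swRR h u a] at V
  (simp only [mul_add, add_mul, mul_sub, sub_mul, neg_mul,
        mul_neg, mul_assoc, neg_neg, neg_zero, add_zero, zero_add, sub_zero, zero_sub, mul_zero, zero_mul,
        zz' ha, zz' hb, ha.zz, hb.zz,
        t_lll h ha, t_llr h ha, t_lrl h ha, t_rll h ha, t_lrr h ha, t_rlr h ha, t_rrl h ha, t_rrr h ha,
        w_lll h ha, w_llr h ha, w_lrl h ha, w_rll h ha, w_lrr h ha, w_rlr h ha, w_rrl h ha, w_rrr h ha,
        t_lll h hb, t_llr h hb, t_lrl h hb, t_rll h hb, t_lrr h hb, t_rlr h hb, t_rrl h hb, t_rrr h hb,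
        w_lll h hb, w_llr h hb, w_lrl h hb, w_rll h hb, w_lrr h hb, w_rlr h hb, w_rrl h hb, w_rrr h hb] at V)
  linear_combination (norm := noncomm_ring) V

theorem eq_c : - ((T false) a * ((T true) u * Q b a)) + Q a (b * u) * (T false) b + Q a (u * b) * (T false) b =
    - (Q a b * ((T true) u * (T false) b)) + (T false) a * Q b (u * a) + (T false) a * Q b (a * u) := by
  have V : (T false) a * ((T true) b * (T true) u) * (T true) a * (T false) b = (T false) a * (T true) b * ((T true) u * (T true) a) * (T false) b := by noncomm_ring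
  rw [swLL h b u, swLL h u a] at V
  (simp only [mul_add, add_mul, mul_sub, sub_mul, neg_mul,
        mul_neg, mul_assoc, neg_neg, neg_zero, add_zero, zero_add, sub_zero, zero_sub, mul_zero, zero_mul,
        zz' ha, zz' hb, ha.zz, hb.zz,
        t_lll h ha, t_llr h ha, t_lrl h ha, t_rll h ha, t_lrr h ha, t_rlr h ha, t_rrl h ha, t_rrr h ha,
        w_lll h ha, w_llr h ha, w_lrl h ha, w_rll h ha, w_lrr h ha, w_rlr h ha, w_rrl h ha, w_rrr h ha,
        t_lll h hb, t_llr h hb, t_lrl h hb, t_rll h hb, t_lrr h hb, t_rlr h hb, t_rrl h hb, t_rrr h hb,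
        w_lll h hb, w_llr h hb, w_lrl h hb, w_rll h hb, w_lrr h hb, w_rlr h hb, w_rrl h hb, w_rrr h hb] at V)
  linear_combination (norm := noncomm_ring) V

theorem eq_g : (T false) a * ((T true) u * Q b a) - Q a (b * u) * (T false) b - Q a (u * b) * (T false) b =
    - ((T false) a * Q b (a * u)) := by
  have V : (T false) a * ((T true) b * (T true) u) * (T false) a * (T false) b = (T false) a * (T true) b * ((T true) u * (T false) a) * (T false) b := by noncomm_ring
  rw [swLL h b u, opLR h u a] at V
  (simp only [mul_add, add_mul, mul_sub, sub_mul, neg_mul,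
        mul_neg, mul_assoc, neg_neg, neg_zero, add_zero, zero_add, sub_zero, zero_sub, mul_zero, zero_mul,
        zz' ha, zz' hb, ha.zz, hb.zz,
        t_lll h ha, t_llr h ha, t_lrl h ha, t_rll h ha, t_lrr h ha, t_rlr h ha, t_rrl h ha, t_rrr h ha,
        w_lll h ha, w_llr h ha, w_lrl h ha, w_rll h ha, w_lrr h ha, w_rlr h ha, w_rrl h ha, w_rrr h ha,
        t_lll h hb, t_llr h hb, t_lrl h hb, t_rll h hb, t_lrr h hb, t_rlr h hb, t_rrl h hb, t_rrr h hb,
        w_lll h hb, w_llr h hb, w_lrl h hb, w_rll h hb, w_lrr h hb, w_rlr h hb, w_rrl h hb, w_rrr h hb] at V)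
  linear_combination (norm := noncomm_ring) V

theorem eq_ex : Q a b * ((T false) u * (T true) b) = Q a b * ((T true) u * (T false) b) := by
  ext z
  have h1 := altM h b z u
  have h2 := congrArg (Q a b) h1
  have h3 : Q a b (b * (z * u)) = 0 := by
    have := DFunLike.congr_fun (Qabb_l h ha hb) (z * u)
    simpa [ap_mul] using this
  have h4 : Q a b ((u * z) * b) = 0 := by
    have := DFunLike.congr_fun (Qabb_r h ha hb) (u * z)
    simpa [ap_mul] using this
  simp only [map_sub, map_neg, h3, h4, sub_zero, zero_sub, neg_neg] at h2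
  simpa [ap_mul] using h2

/-- the common value `Π` -/
theorem Pi_all : (T true) a * Q b (u * a) = (T true) a * Q b (a * u) ∧ (T false) a * Q b (a * u) = (T true) a * Q b (a * u) ∧
    (T false) a * Q b (u * a) = (T true) a * Q b (a * u) := by
  have o := eq_o h ha hb u
  have dd := eq_dd h ha hb u
  have e_h := eq_h h ha hb u
  have e_l := eq_l h ha hb u
  have e_c := eq_c h ha hb u
  have e_g := eq_g h ha hb u
  have ex := eq_ex h ha hb u
  have k1 : (T true) a * Q b (u * a) = (T true) a * Q b (a * u) := by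
    linear_combination (norm := noncomm_ring) -e_h - e_l - o
  have k2 : (T false) a * Q b (a * u) = (T true) a * Q b (a * u) := by
    linear_combination (norm := noncomm_ring) o - ex - dd + k1
  have k3 : (T false) a * Q b (u * a) = (T true) a * Q b (a * u) := by
    linear_combination (norm := noncomm_ring) -e_c - e_g + dd + k2
  exact ⟨k1, k2, k3⟩

/-- `Π a b u = (T true) a * Q b (a * u)`. -/
theorem eq_b : (T true) a * ((T true) u * Q b a) = - ((T true) a * Q b (a * u)) - (T true) a * Q b (a * u) := by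
  have V : (T true) a * ((T true) b * (T true) u) * (T true) a * (T false) b = (T true) a * (T true) b * ((T true) u * (T true) a) * (T false) b := by noncomm_ring
  rw [swLL h b u, swLL h u a] at V
  (simp only [mul_add, add_mul, mul_sub, sub_mul, neg_mul,
        mul_neg, mul_assoc, neg_neg, neg_zero, add_zero, zero_add, sub_zero, zero_sub, mul_zero, zero_mul,
        zz' ha, zz' hb, ha.zz, hb.zz,
        t_lll h ha, t_llr h ha, t_lrl h ha, t_rll h ha, t_lrr h ha, t_rlr h ha, t_rrl h ha, t_rrr h ha,
        w_lll h ha, w_llr h ha, w_lrl h ha, w_rll h ha, w_lrr h ha, w_rlr h ha, w_rrl h ha, w_rrr h ha,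
        t_lll h hb, t_llr h hb, t_lrl h hb, t_rll h hb, t_lrr h hb, t_rlr h hb, t_rrl h hb, t_rrr h hb,
        w_lll h hb, w_llr h hb, w_lrl h hb, w_rll h hb, w_lrr h hb, w_rlr h hb, w_rrl h hb, w_rrr h hb] at V)
  have k := (Pi_all h ha hb u).1
  linear_combination (norm := noncomm_ring) -V - k

theorem eq_q : (T true) a * ((T false) u * Q b a) + (T true) a * ((T true) u * Q b a) =
    Q a b * ((T false) u * (T false) b) + (T true) a * Q b (a * u) := by
  have V : (T true) a * ((T true) b * (T false) u) * (T true) a * (T false) b = (T true) a * (T true) b * ((T false) u * (T true) a) * (T false) b := by noncomm_ring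
  rw [opLR h b u, opRL h u a] at V
  (simp only [mul_add, add_mul, mul_sub, sub_mul, neg_mul,
        mul_neg, mul_assoc, neg_neg, neg_zero, add_zero, zero_add, sub_zero, zero_sub, mul_zero, zero_mul,
        zz' ha, zz' hb, ha.zz, hb.zz,
        t_lll h ha, t_llr h ha, t_lrl h ha, t_rll h ha, t_lrr h ha, t_rlr h ha, t_rrl h ha, t_rrr h ha,
        w_lll h ha, w_llr h ha, w_lrl h ha, w_rll h ha, w_lrr h ha, w_rlr h ha, w_rrl h ha, w_rrr h ha,
        t_lll h hb, t_llr h hb, t_lrl h hb, t_rll h hb, t_lrr h hb, t_rlr h hb, t_rrl h hb, t_rrr h hb,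
        w_lll h hb, w_llr h hb, w_lrl h hb, w_rll h hb, w_lrr h hb, w_rlr h hb, w_rrl h hb, w_rrr h hb] at V)
  have k := (Pi_all h ha hb u).1
  linear_combination (norm := noncomm_ring) V + k

theorem eq_j : (T true) a * ((T false) u * Q b a) + Q a (b * u) * (T false) b + Q a (u * b) * (T false) b = 0 := by
  have V : (T true) a * ((T false) b * (T false) u) * (T true) a * (T false) b = (T true) a * (T false) b * ((T false) u * (T true) a) * (T false) b := by noncomm_ring
  rw [swRR h b u, opRL h u a] at V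
  (simp only [mul_add, add_mul, mul_sub, sub_mul, neg_mul,
        mul_neg, mul_assoc, neg_neg, neg_zero, add_zero, zero_add, sub_zero, zero_sub, mul_zero, zero_mul,
        zz' ha, zz' hb, ha.zz, hb.zz,
        t_lll h ha, t_llr h ha, t_lrl h ha, t_rll h ha, t_lrr h ha, t_rlr h ha, t_rrl h ha, t_rrr h ha,
        w_lll h ha, w_llr h ha, w_lrl h ha, w_rll h ha, w_lrr h ha, w_rlr h ha, w_rrl h ha, w_rrr h ha,
        t_lll h hb, t_llr h hb, t_lrl h hb, t_rll h hb, t_lrr h hb, t_rlr h hb, t_rrl h hb, t_rrr h hb,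
        w_lll h hb, w_llr h hb, w_lrl h hb, w_rll h hb, w_lrr h hb, w_rlr h hb, w_rrl h hb, w_rrr h hb] at V)
  linear_combination (norm := noncomm_ring) V

theorem eq_n : - (Q a (b * u) * (T false) b) - Q a (u * b) * (T false) b = Q a b * ((T false) u * (T false) b) := by
  have V : (T true) a * ((T false) b * (T false) u) * (T false) a * (T false) b = (T true) a * (T false) b * ((T false) u * (T false) a) * (T false) b := by noncomm_ring
  rw [swRR h b u, swRR h u a] at V
  (simp only [mul_add, add_mul, mul_sub, sub_mul, neg_mul,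
        mul_neg, mul_assoc, neg_neg, neg_zero, add_zero, zero_add, sub_zero, zero_sub, mul_zero, zero_mul,
        zz' ha, zz' hb, ha.zz, hb.zz,
        t_lll h ha, t_llr h ha, t_lrl h ha, t_rll h ha, t_lrr h ha, t_rlr h ha, t_rrl h ha, t_rrr h ha,
        w_lll h ha, w_llr h ha, w_lrl h ha, w_rll h ha, w_lrr h ha, w_rlr h ha, w_rrl h ha, w_rrr h ha,
        t_lll h hb, t_llr h hb, t_lrl h hb, t_rll h hb, t_lrr h hb, t_rlr h hb, t_rrl h hb, t_rrr h hb,
        w_lll h hb, w_llr h hb, w_lrl h hb, w_rll h hb, w_lrr h hb, w_rlr h hb, w_rrl h hb, w_rrr h hb] at V)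
  linear_combination (norm := noncomm_ring) V

/-- `3 Π = 0` -/
theorem three_Pi : (T true) a * Q b (a * u) + (T true) a * Q b (a * u) + (T true) a * Q b (a * u) = 0 := by
  have e1 := eq_b h ha hb u
  have e2 := eq_q h ha hb u
  have e3 := eq_j h ha hb u
  have e4 := eq_n h ha hb u
  linear_combination (norm := noncomm_ring) e1 - e2 + e3 + e4

theorem eq_p : Q a (u * b) * (T true) b = (T true) a * Q b (a * u) := by
  have V : (T false) a * ((T true) b * (T false) u) * (T true) a * (T true) b = (T false) a * (T true) b * ((T false) u * (T true) a) * (T true) b := by noncomm_ring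
  rw [opLR h b u, opRL h u a] at V
  (simp only [mul_add, add_mul, mul_sub, sub_mul, neg_mul,
        mul_neg, mul_assoc, neg_neg, neg_zero, add_zero, zero_add, sub_zero, zero_sub, mul_zero, zero_mul,
        zz' ha, zz' hb, ha.zz, hb.zz,
        t_lll h ha, t_llr h ha, t_lrl h ha, t_rll h ha, t_lrr h ha, t_rlr h ha, t_rrl h ha, t_rrr h ha,
        w_lll h ha, w_llr h ha, w_lrl h ha, w_rll h ha, w_lrr h ha, w_rlr h ha, w_rrl h ha, w_rrr h ha,
        t_lll h hb, t_llr h hb, t_lrl h hb, t_rll h hb, t_lrr h hb, t_rlr h hb, t_rrl h hb, t_rrr h hb,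
        w_lll h hb, w_llr h hb, w_lrl h hb, w_rll h hb, w_lrr h hb, w_rlr h hb, w_rrl h hb, w_rrr h hb] at V)
  have k := (Pi_all h ha hb u).2.2
  linear_combination (norm := noncomm_ring) -V + k

theorem eq_cc : Q a (b * u) * (T false) b = (T true) a * Q b (a * u) := by
  have V : (T true) a * ((T false) b * (T true) u) * (T false) a * (T false) b = (T true) a * (T false) b * ((T true) u * (T false) a) * (T false) b := by noncomm_ring
  rw [opRL h b u, opLR h u a] at V
  (simp only [mul_add, add_mul, mul_sub, sub_mul, neg_mul,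
        mul_neg, mul_assoc, neg_neg, neg_zero, add_zero, zero_add, sub_zero, zero_sub, mul_zero, zero_mul,
        zz' ha, zz' hb, ha.zz, hb.zz,
        t_lll h ha, t_llr h ha, t_lrl h ha, t_rll h ha, t_lrr h ha, t_rlr h ha, t_rrl h ha, t_rrr h ha,
        w_lll h ha, w_llr h ha, w_lrl h ha, w_rll h ha, w_lrr h ha, w_rlr h ha, w_rrl h ha, w_rrr h ha,
        t_lll h hb, t_llr h hb, t_lrl h hb, t_rll h hb, t_lrr h hb, t_rlr h hb, t_rrl h hb, t_rrr h hb,
        w_lll h hb, w_llr h hb, w_lrl h hb, w_rll h hb, w_lrr h hb, w_rlr h hb, w_rrl h hb, w_rrr h hb] at V)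
  linear_combination (norm := noncomm_ring) V

theorem eq_e : (T false) a * ((T true) u * Q b a) + Q a (b * u) * (T true) b + Q a (u * b) * (T true) b = 0 := by
  have V : (T false) a * ((T true) b * (T true) u) * (T false) a * (T true) b = (T false) a * (T true) b * ((T true) u * (T false) a) * (T true) b := by noncomm_ring
  rw [swLL h b u, opLR h u a] at V
  (simp only [mul_add, add_mul, mul_sub, sub_mul, neg_mul,
        mul_neg, mul_assoc, neg_neg, neg_zero, add_zero, zero_add, sub_zero, zero_sub, mul_zero, zero_mul,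
        zz' ha, zz' hb, ha.zz, hb.zz,
        t_lll h ha, t_llr h ha, t_lrl h ha, t_rll h ha, t_lrr h ha, t_rlr h ha, t_rrl h ha, t_rrr h ha,
        w_lll h ha, w_llr h ha, w_lrl h ha, w_rll h ha, w_lrr h ha, w_rlr h ha, w_rrl h ha, w_rrr h ha,
        t_lll h hb, t_llr h hb, t_lrl h hb, t_rll h hb, t_lrr h hb, t_rlr h hb, t_rrl h hb, t_rrr h hb,
        w_lll h hb, w_llr h hb, w_lrl h hb, w_rll h hb, w_lrr h hb, w_rlr h hb, w_rrl h hb, w_rrr h hb] at V)
  linear_combination (norm := noncomm_ring) -V

theorem eq_a : Q a (b * u) * (T true) b + Q a (u * b) * (T true) b = - (Q a b * ((T true) u * (T true) b)) := by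
  have V : (T false) a * ((T true) b * (T true) u) * (T true) a * (T true) b = (T false) a * (T true) b * ((T true) u * (T true) a) * (T true) b := by noncomm_ring
  rw [swLL h b u, swLL h u a] at V
  (simp only [mul_add, add_mul, mul_sub, sub_mul, neg_mul,
        mul_neg, mul_assoc, neg_neg, neg_zero, add_zero, zero_add, sub_zero, zero_sub, mul_zero, zero_mul,
        zz' ha, zz' hb, ha.zz, hb.zz,
        t_lll h ha, t_llr h ha, t_lrl h ha, t_rll h ha, t_lrr h ha, t_rlr h ha, t_rrl h ha, t_rrr h ha,
        w_lll h ha, w_llr h ha, w_lrl h ha, w_rll h ha, w_lrr h ha, w_rlr h ha, w_rrl h ha, w_rrr h ha,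
        t_lll h hb, t_llr h hb, t_lrl h hb, t_rll h hb, t_lrr h hb, t_rlr h hb, t_rrl h hb, t_rrr h hb,
        w_lll h hb, w_llr h hb, w_lrl h hb, w_rll h hb, w_lrr h hb, w_rlr h hb, w_rrl h hb, w_rrr h hb] at V)
  linear_combination (norm := noncomm_ring) V

theorem eq_i : - ((T false) a * ((T false) u * Q b a)) - Q a (b * u) * (T true) b - Q a (u * b) * (T true) b =
    - (Q a b * ((T false) u * (T true) b)) + (T false) a * Q b (u * a) := by
  have V : (T false) a * ((T false) b * (T false) u) * (T true) a * (T true) b = (T false) a * (T false) b * ((T false) u * (T true) a) * (T true) b := by noncomm_ring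
  rw [swRR h b u, opRL h u a] at V
  (simp only [mul_add, add_mul, mul_sub, sub_mul, neg_mul,
        mul_neg, mul_assoc, neg_neg, neg_zero, add_zero, zero_add, sub_zero, zero_sub, mul_zero, zero_mul,
        zz' ha, zz' hb, ha.zz, hb.zz,
        t_lll h ha, t_llr h ha, t_lrl h ha, t_rll h ha, t_lrr h ha, t_rlr h ha, t_rrl h ha, t_rrr h ha,
        w_lll h ha, w_llr h ha, w_lrl h ha, w_rll h ha, w_lrr h ha, w_rlr h ha, w_rrl h ha, w_rrr h ha,
        t_lll h hb, t_llr h hb, t_lrl h hb, t_rll h hb, t_lrr h hb, t_rlr h hb, t_rrl h hb, t_rrr h hb,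
        w_lll h hb, w_llr h hb, w_lrl h hb, w_rll h hb, w_lrr h hb, w_rlr h hb, w_rrl h hb, w_rrr h hb] at V)
  linear_combination (norm := noncomm_ring) V

theorem eq_m : (T false) a * ((T false) u * Q b a) = - ((T false) a * Q b (u * a)) - (T false) a * Q b (a * u) := by
  have V : (T false) a * ((T false) b * (T false) u) * (T false) a * (T true) b = (T false) a * (T false) b * ((T false) u * (T false) a) * (T true) b := by noncomm_ring
  rw [swRR h b u, swRR h u a] at V
  (simp only [mul_add, add_mul, mul_sub, sub_mul, neg_mul,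
        mul_neg, mul_assoc, neg_neg, neg_zero, add_zero, zero_add, sub_zero, zero_sub, mul_zero, zero_mul,
        zz' ha, zz' hb, ha.zz, hb.zz,
        t_lll h ha, t_llr h ha, t_lrl h ha, t_rll h ha, t_lrr h ha, t_rlr h ha, t_rrl h ha, t_rrr h ha,
        w_lll h ha, w_llr h ha, w_lrl h ha, w_rll h ha, w_lrr h ha, w_rlr h ha, w_rrl h ha, w_rrr h ha,
        t_lll h hb, t_llr h hb, t_lrl h hb, t_rll h hb, t_lrr h hb, t_rlr h hb, t_rrl h hb, t_rrr h hb,
        w_lll h hb, w_llr h hb, w_lrl h hb, w_rll h hb, w_lrr h hb, w_rlr h hb, w_rrl h hb, w_rrr h hb] at V)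
  linear_combination (norm := noncomm_ring) V

theorem Qauz_l : Q a (b * u) * (T true) b = (T true) a * Q b (a * u) := by
  have e1 := eq_i h ha hb u
  have e2 := eq_m h ha hb u
  have e3 := eq_p h ha hb u
  have e4 := eq_o h ha hb u
  obtain ⟨k1, k2, k3⟩ := Pi_all h ha hb u
  have t3 := three_Pi h ha hb u
  linear_combination (norm := noncomm_ring) -e1 - e2 - e3 + e4 + k1 + k2

/-- `Π` is skew-symmetric -/
theorem Pi_skew (z : A) : a * (Q b (a * u) z) = - (a * (Q b (a * z) u)) := by
  have e1 := DFunLike.congr_fun (eq_p h ha hb u) z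
  have e2 := DFunLike.congr_fun (eq_cc h ha hb z) u
  simp only [ap_mul, T_true, T_false] at e1 e2
  rw [← e1, ← e2, q_skew h ha]

theorem eq_e_arg (z : A) : b * (Q a z (b * u)) = a * ((Q b a u) * z) := by
  -- compute `(a (b u)) (b (a z))` in two ways
  have E1 : (a * (b * u)) * (b * (a * z)) = 0 := by
    have V : ((T true) a * (T false) (b * u) + (T true) a * (T true) (b * u) - (T false) (b * u) * (T true) a) * (T true) b * (T true) a =
        (T true) (a * (b * u)) * (T true) b * (T true) a := by rw [opL h a (b * u)]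
    rw [opL h b u, opR h b u] at V
    (simp only [mul_add, add_mul, mul_sub, sub_mul, neg_mul,
        mul_neg, mul_assoc, neg_neg, neg_zero, add_zero, zero_add, sub_zero, zero_sub, mul_zero, zero_mul,
        zz' ha, zz' hb, ha.zz, hb.zz,
        t_lll h ha, t_llr h ha, t_lrl h ha, t_rll h ha, t_lrr h ha, t_rlr h ha, t_rrl h ha, t_rrr h ha,
        w_lll h ha, w_llr h ha, w_lrl h ha, w_rll h ha, w_lrr h ha, w_rlr h ha, w_rrl h ha, w_rrr h ha,
        t_lll h hb, t_llr h hb, t_lrl h hb, t_rll h hb, t_lrr h hb, t_rlr h hb, t_rrl h hb, t_rrr h hb,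
        w_lll h hb, w_llr h hb, w_lrl h hb, w_rll h hb, w_lrr h hb, w_rlr h hb, w_rrl h hb, w_rrr h hb] at V)
    have V1 : (T true) (a * (b * u)) * ((T true) b * (T true) a) = 0 := by
      linear_combination (norm := noncomm_ring) -V - (T false) u * Qabb_l h hb ha
    have V2 := DFunLike.congr_fun V1 z
    exact V2
  have E2 : (T true) b * (Q a z * (T true) b) - (T true) a * ((T false) z * Q b a) = (T false) (b * (a * z)) * (T true) a * (T true) b := by
    have V : ((T false) (a * z) * (T true) b - (T true) b * (T false) (a * z) + (T false) (a * z) * (T false) b) * (T true) a * (T true) b =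
        (T false) (b * (a * z)) * (T true) a * (T true) b := by rw [opR h b (a * z)]
    rw [opR h a z] at V
    (simp only [mul_add, add_mul, mul_sub, sub_mul, neg_mul,
        mul_neg, mul_assoc, neg_neg, neg_zero, add_zero, zero_add, sub_zero, zero_sub, mul_zero, zero_mul,
        zz' ha, zz' hb, ha.zz, hb.zz,
        t_lll h ha, t_llr h ha, t_lrl h ha, t_rll h ha, t_lrr h ha, t_rlr h ha, t_rrl h ha, t_rrr h ha,
        w_lll h ha, w_llr h ha, w_lrl h ha, w_rll h ha, w_lrr h ha, w_rlr h ha, w_rrl h ha, w_rrr h ha,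
        t_lll h hb, t_llr h hb, t_lrl h hb, t_rll h hb, t_lrr h hb, t_rlr h hb, t_rrl h hb, t_rrr h hb,
        w_lll h hb, w_llr h hb, w_lrl h hb, w_rll h hb, w_lrr h hb, w_rlr h hb, w_rrl h hb, w_rrr h hb] at V)
    linear_combination (norm := noncomm_ring) V - (T false) z * Qabb_l h ha hb
  have E3 := DFunLike.congr_fun E2 u
  simp only [ap_mul, ap_sub, T_true, T_false, E1] at E3
  exact sub_eq_zero.mp E3

/-- symmetry of `Π` in `a, b` -/
theorem Pi_symm : (T true) b * Q a (b * u) = (T true) a * Q b (a * u) := by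
  ext z
  have e1 := eq_e_arg h ha hb u z
  -- b (Q a z (b u)) = a ((Q b a u) z)
  have e2 := eq_h h ha hb z
  have e3 := eq_p h ha hb z
  have e4 := Qauz_l h ha hb z
  have k := (Pi_all h ha hb z).1
  have t3 := three_Pi h ha hb z
  have e5 : (T true) a * ((T false) z * Q b a) = (T true) a * Q b (a * z) := by
    linear_combination (norm := noncomm_ring) -e2 + e3 + e4 - k
  have e6 := DFunLike.congr_fun e5 u
  simp only [ap_mul, T_true, T_false] at e6 ⊢
  rw [e6, q_skew h ha, mul_neg, Pi_skew h ha hb z u, neg_inj] at e1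
  exact e1

/-- all products `T_a Q_b(T_a u)` are equal -/
theorem Pi_types (i l : Bool) : T i a * Q b (T l a u) = (T true) a * Q b (a * u) := by
  obtain ⟨k1, k2, k3⟩ := Pi_all h ha hb u
  cases i <;> cases l <;> simp only [T_true, T_false, k1, k2, k3]

/-- `q_{ab} = - Π` -/
theorem Q_ab : Q (a * b) u = - ((T true) a * Q b (a * u)) := by
  have V : Q (a * b) u = ((T true) a * (T false) b + (T true) a * (T true) b - (T false) b * (T true) a) * (T true) u *
      ((T false) b * (T true) a - (T true) a * (T false) b + (T false) b * (T false) a) := by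
    rw [← Q_def, opL h a b, opR h a b]
  have V1 : (T true) a * ((T true) b * ((T true) u * ((T true) a * (T false) b))) = (T true) a * Q b (a * u) + (T true) a * Q b (a * u) := by
    have V : (T true) a * ((T true) b * ((T true) u * ((T true) a * (T false) b))) = (T true) a * (T true) b * ((T true) u * (T true) a) * (T false) b := by noncomm_ring
    rw [swLL h u a] at V
    (simp only [mul_add, add_mul, mul_sub, sub_mul, neg_mul,
        mul_neg, mul_assoc, neg_neg, neg_zero, add_zero, zero_add, sub_zero, zero_sub, mul_zero, zero_mul,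
        zz' ha, zz' hb, ha.zz, hb.zz,
        t_lll h ha, t_llr h ha, t_lrl h ha, t_rll h ha, t_lrr h ha, t_rlr h ha, t_rrl h ha, t_rrr h ha,
        w_lll h ha, w_llr h ha, w_lrl h ha, w_rll h ha, w_lrr h ha, w_rlr h ha, w_rrl h ha, w_rrr h ha,
        t_lll h hb, t_llr h hb, t_lrl h hb, t_rll h hb, t_lrr h hb, t_rlr h hb, t_rrl h hb, t_rrr h hb,
        w_lll h hb, w_llr h hb, w_lrl h hb, w_rll h hb, w_lrr h hb, w_rlr h hb, w_rrl h hb, w_rrr h hb] at V)
    linear_combination (norm := noncomm_ring) V + (Pi_all h ha hb u).1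
  have V2 : (T true) a * ((T false) b * ((T true) u * ((T true) a * (T false) b))) = 0 := by
    have V : (T true) a * ((T false) b * ((T true) u * ((T true) a * (T false) b))) = (T true) a * (T false) b * ((T true) u * (T true) a) * (T false) b := by noncomm_ring
    rw [swLL h u a] at V
    (simp only [mul_add, add_mul, mul_sub, sub_mul, neg_mul,
        mul_neg, mul_assoc, neg_neg, neg_zero, add_zero, zero_add, sub_zero, zero_sub, mul_zero, zero_mul,
        zz' ha, zz' hb, ha.zz, hb.zz,
        t_lll h ha, t_llr h ha, t_lrl h ha, t_rll h ha, t_lrr h ha, t_rlr h ha, t_rrl h ha, t_rrr h ha,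
        w_lll h ha, w_llr h ha, w_lrl h ha, w_rll h ha, w_lrr h ha, w_rlr h ha, w_rrl h ha, w_rrr h ha,
        t_lll h hb, t_llr h hb, t_lrl h hb, t_rll h hb, t_lrr h hb, t_rlr h hb, t_rrl h hb, t_rrr h hb,
        w_lll h hb, w_llr h hb, w_lrl h hb, w_rll h hb, w_lrr h hb, w_rlr h hb, w_rrl h hb, w_rrr h hb] at V)
    have e := eq_dd h ha hb u
    obtain ⟨k1, k2, k3⟩ := Pi_all h ha hb u
    have t3 := three_Pi h ha hb u
    linear_combination (norm := noncomm_ring) V - e - k1 - k2 - t3
  have V3 : (T false) b * ((T true) a * ((T true) u * ((T false) b * (T true) a))) = 0 := by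
    have V : (T false) b * ((T true) a * ((T true) u * ((T false) b * (T true) a))) = (T false) b * (T true) a * ((T true) u * (T false) b) * (T true) a := by noncomm_ring
    rw [opLR h u b] at V
    (simp only [mul_add, add_mul, mul_sub, sub_mul, neg_mul,
        mul_neg, mul_assoc, neg_neg, neg_zero, add_zero, zero_add, sub_zero, zero_sub, mul_zero, zero_mul,
        zz' ha, zz' hb, ha.zz, hb.zz,
        t_lll h ha, t_llr h ha, t_lrl h ha, t_rll h ha, t_lrr h ha, t_rlr h ha, t_rrl h ha, t_rrr h ha,
        w_lll h ha, w_llr h ha, w_lrl h ha, w_rll h ha, w_lrr h ha, w_rlr h ha, w_rrl h ha, w_rrr h ha,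
        t_lll h hb, t_llr h hb, t_lrl h hb, t_rll h hb, t_lrr h hb, t_rlr h hb, t_rrl h hb, t_rrr h hb,
        w_lll h hb, w_llr h hb, w_lrl h hb, w_rll h hb, w_lrr h hb, w_rlr h hb, w_rrl h hb, w_rrr h hb] at V)
    linear_combination (norm := noncomm_ring) V
  have V4 : (T false) b * ((T true) a * ((T true) u * ((T false) b * (T false) a))) = - ((T true) a * Q b (a * u)) := by
    have V : (T false) b * ((T true) a * ((T true) u * ((T false) b * (T false) a))) = (T false) b * (T true) a * ((T true) u * (T false) b) * (T false) a := by noncomm_ring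
    rw [opLR h u b] at V
    (simp only [mul_add, add_mul, mul_sub, sub_mul, neg_mul,
        mul_neg, mul_assoc, neg_neg, neg_zero, add_zero, zero_add, sub_zero, zero_sub, mul_zero, zero_mul,
        zz' ha, zz' hb, ha.zz, hb.zz,
        t_lll h ha, t_llr h ha, t_lrl h ha, t_rll h ha, t_lrr h ha, t_rlr h ha, t_rrl h ha, t_rrr h ha,
        w_lll h ha, w_llr h ha, w_lrl h ha, w_rll h ha, w_lrr h ha, w_rlr h ha, w_rrl h ha, w_rrr h ha,
        t_lll h hb, t_llr h hb, t_lrl h hb, t_rll h hb, t_lrr h hb, t_rlr h hb, t_rrl h hb, t_rrr h hb,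
        w_lll h hb, w_llr h hb, w_lrl h hb, w_rll h hb, w_lrr h hb, w_rlr h hb, w_rrl h hb, w_rrr h hb] at V)
    have e := Pi_symm h ha hb u
    have e' := (Pi_all h hb ha u).2.1
    linear_combination (norm := noncomm_ring) V - e - e'
  (simp only [mul_add, add_mul, mul_sub, sub_mul, neg_mul,
        mul_neg, mul_assoc, neg_neg, neg_zero, add_zero, zero_add, sub_zero, zero_sub, mul_zero, zero_mul,
        zz' ha, zz' hb, ha.zz, hb.zz,
        t_lll h ha, t_llr h ha, t_lrl h ha, t_rll h ha, t_lrr h ha, t_rlr h ha, t_rrl h ha, t_rrr h ha,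
        w_lll h ha, w_llr h ha, w_lrl h ha, w_rll h ha, w_lrr h ha, w_rlr h ha, w_rrl h ha, w_rrr h ha,
        t_lll h hb, t_llr h hb, t_lrl h hb, t_rll h hb, t_lrr h hb, t_rlr h hb, t_rrl h hb, t_rrr h hb,
        w_lll h hb, w_llr h hb, w_lrl h hb, w_rll h hb, w_lrr h hb, w_rlr h hb, w_rrl h hb, w_rrr h hb] at V)
  linear_combination (norm := noncomm_ring) V - V1 - V2 - V3 - V4

end two

end Pool.Agent.Helper99.BD8
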