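import Pool.Agent.Helper99.BD8.Level0b

/-!
Level 0: final results.
-/

set_option autoImplicit false

namespace Pool.Agent.Helper99.BD8

variable {A : Type*} [NonUnitalNonAssocRing A]


/-- left Moufang identity -/
theorem moufL (h : Alt A) (x z a : A) : x * (z * (x * a)) = ((x * z) * x) * a := by
  have i1 := altL h (x * z) x a
  have i2 := altR h z (x * a) x
  have i3 : x * (x * z) = (x * x) * z := ((h x z).1).symm
  have i4 : x * (x * a) = (x * x) * a := ((h x a).1).symm
  have i5 := altR h z a (x * x)
  have i6 := altR h z a x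
  have i7 : x * (x * (z * a)) = (x * x) * (z * a) := ((h x (z * a)).1).symm
  have i8 : x * (x * (a * z)) = (x * x) * (a * z) := ((h x (a * z)).1).symm
  have j3 := congrArg (· * a) i3
  have j4 := congrArg (· * z) i4
  have j6 := congrArg (x * ·) i6
  simp only [mul_add] at j6
  linear_combination (norm := abel) -i1 - i2 + j3 + j4 + i5 - j6 - i7 - i8

section one
variable (h : Alt A) {a : A} (ha : Y 0 a)
include h ha

theorem Q_self (x : A) : Q a x x = 0 := by
  have e : a * ((x * x) * a) = 0 := by
    have := DFunLike.congr_fun (ha.zz true false) (x * x)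
    simpa [ap_mul] using this
  rw [(h x a).1] at e
  exact e

theorem Q_sq (x : A) : Q a (x * x) = Q a x * ((T true) x + (T false) x) := by
  ext z
  have z1 : ∀ y : A, a * (y * a) = 0 := by
    intro y
    have := DFunLike.congr_fun (ha.zz true false) y
    simpa [ap_mul] using this
  rw [q_skew h ha, ap_mul, ap_add, q_skew h ha x]
  simp only [T_true, T_false]
  rw [neg_inj]
  -- Q a z (x x) = Q a (x z + z x) x
  have e1 : Q a z (x * x) = a * (z * (x * (x * a))) := by
    rw [← (h x a).1]; rfl
  have e2 : Q a (x * z + z * x) x = a * (x * (z * (x * a))) + a * (z * (x * (x * a))) := by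
    have := altL h x z (x * a)
    have e : Q a (x * z + z * x) x = a * ((x * z + z * x) * (x * a)) := rfl
    rw [e, add_mul, this, mul_add]
  rw [e1, e2, moufL h x z a, z1, zero_add]

omit ha in
theorem opFlex (c : A) : (T true) c * (T false) c = (T false) c * (T true) c := by
  ext z
  have e := altC h c z c
  rw [(h c z).2, sub_self, sub_eq_zero] at e
  simpa [ap_mul] using e.symm

omit ha in
theorem key0 (c : A) (h1 : c * c = 0) (h2 : (T true) c * (T false) c = 0) : Y 0 c := by
  refine ⟨h1, ?_⟩
  intro t t' w hw
  have hw : w = [] := by simpa using hw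
  subst hw
  have e1 : (T true) c * (T true) c = 0 := by
    ext z
    have := (h c z).1
    rw [h1, zero_mul] at this
    simpa [ap_mul, ap_zero] using this.symm
  have e2 : (T false) c * (T false) c = 0 := by
    ext z
    have := (h c z).2
    rw [h1, mul_zero] at this
    simpa [ap_mul, ap_zero] using this
  have e3 : (T false) c * (T true) c = 0 := by
    rw [← opFlex h c, h2]
  cases t <;> cases t' <;> simp [e1, e2, e3, h2]

theorem Y0_mul (x : A) : Y 0 (a * x) ∧ Y 0 (x * a) := by
  have hQ := Q_sq h ha x
  have hQs := Q_self h ha x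
  have eL : (T true) x * (T true) x = (T true) (x * x) := by
    ext z; exact ((h x z).1).symm
  have eR : (T false) x * (T false) x = (T false) (x * x) := by
    ext z; exact (h x z).2
  constructor
  · apply key0 h
    · have e : (a * x) * (a * x) = ((T true) (a * x) * (T true) a) x := rfl
      rw [e, opL h a x]
      have V : ((T true) a * (T false) x + (T true) a * (T true) x - (T false) x * (T true) a) * (T true) a = Q a x := by
        linear_combination (norm := noncomm_ring) q_lrl h ha x + q_lll h ha x - (T false) x * ha.zz true true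
      rw [V, hQs]
    · rw [opFlex h, opL h a x, opR h a x]
      linear_combination (norm := noncomm_ring) hQ - (T false) x * q_lrl h ha x - q_lrl h ha x * ((T false) x + (T true) x)
        + (T true) a * eR * (T true) a + q_lrl h ha (x * x) - (T false) x * q_rrl h ha x
        + (T false) x * ha.zz true true * ((T false) x + (T true) x) + (T false) x * ha.zz false true * ((T false) x + (T true) x)
  · apply key0 h
    · have e : (x * a) * (x * a) = ((T false) (x * a) * (T false) a) x := rfl
      rw [e, opR h x a]
      have V : ((T false) a * (T true) x - (T true) x * (T false) a + (T false) a * (T false) x) * (T false) a = - Q a x := by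
        linear_combination (norm := noncomm_ring) q_rlr h ha x + q_rrr h ha x - (T true) x * ha.zz false false
      rw [V, ap_neg, hQs, neg_zero]
    · rw [opL h x a, opR h x a]
      linear_combination (norm := noncomm_ring) -hQ
        - (T true) x * q_rlr h ha x + (T true) x * ha.zz false false * ((T true) x + (T false) x)
        + (T true) x * ha.zz true false * ((T true) x + (T false) x) - q_rlr h ha x * ((T true) x + (T false) x)
        - (T true) x * Q_def a x + (T false) a * eL * (T false) a + q_rlr h ha (x * x)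

end one

theorem Y1_iff (h : Alt A) (a : A) : Y 1 a ↔ Y 0 a ∧ ∀ x, Q a x = 0 := by
  constructor
  · intro ha
    refine ⟨ha.le (by omega), fun x => ?_⟩
    have := ha.2 true false [(true, x)] (by simp)
    simpa [Q, W] using this
  · rintro ⟨ha, hQ⟩
    refine ⟨ha.1, ?_⟩
    intro t t' w hw
    match w, hw with
    | [], _ => simpa using ha.zz t t'
    | [p], _ =>
      obtain ⟨s, x⟩ := p
      have q0 := hQ x
      cases t <;> cases t' <;> cases s <;>
        simp [q_lll h ha, Q_def, q_lrl h ha, q_rll h ha, q_lrr h ha, q_rlr h ha, q_rrl h ha,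
          q_rrr h ha, q0]
    | p :: q :: w, hw => simp at hw

theorem level0_mul (h : Alt A) {a b : A} (ha : Y 1 a) (hb : Y 0 b) :
    Y 1 (a * b) ∧ Y 1 (b * a) := by
  obtain ⟨ha0, hQ⟩ := (Y1_iff h a).mp ha
  constructor
  · refine (Y1_iff h _).mpr ⟨(Y0_mul h ha0 b).1, fun u => ?_⟩
    rw [Q_ab h ha0 hb, ← Pi_symm h ha0 hb, hQ]; simp
  · refine (Y1_iff h _).mpr ⟨(Y0_mul h ha0 b).2, fun u => ?_⟩
    rw [Q_ab h hb ha0, hQ]; simp

theorem Q_aab (h : Alt A) {a b : A} (ha : Y 0 a) (hb : Y 0 b) (i l : Bool) (u : A) :
    Q (a * b) u = - (T i a * Q b (T l a u)) ∧ Q (b * a) u = - (T i a * Q b (T l a u)) := by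
  constructor
  · rw [Pi_types h ha hb, Q_ab h ha hb]
  · rw [Pi_types h ha hb, Q_ab h hb ha, Pi_symm h ha hb]

/-- `c = a (x (y a))` with `a, x, y` in `Y 0` lies in `Y 1` -/
theorem level0_c (h : Alt A) {a x y : A} (ha : Y 0 a) (hx : Y 0 x) (hy : Y 0 y) :
    Y 1 (a * (x * (y * a))) := by
  have h1 := (Y0_mul h ha y).2
  have h2 := (Y0_mul h h1 x).2
  refine (Y1_iff h _).mpr ⟨(Y0_mul h h2 a).2, fun u => ?_⟩
  have e1 := (Q_aab h ha h2 true true u).1
  have e2 := (Q_aab h hx h1 true true (T true a u)).1
  have e3 := (Q_aab h ha hy true true (T true x (T true a u))).2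
  rw [e1, e2, e3]
  linear_combination (norm := noncomm_ring) -q_lll h ha x * Q y (T true a (T true x (T true a u)))

theorem level0_exists (h : Alt A) (hc : AddSubgroup.closure {a : A | Y 0 a} = ⊤)
    (hne : ∃ a : A, a ≠ 0 ∧ Y 0 a) : ∃ a : A, a ≠ 0 ∧ Y 1 a := by
  by_cases hall : ∀ a x y : A, Y 0 a → Y 0 x → Y 0 y → a * (x * (y * a)) = 0
  · obtain ⟨a, ha, hY⟩ := hne
    refine ⟨a, ha, (Y1_iff h a).mpr ⟨hY, fun u => ?_⟩⟩
    have s1 : ∀ x, Y 0 x → ∀ y, Q a x y = 0 := by
      intro x hx y
      have hy : y ∈ AddSubgroup.closure {a : A | Y 0 a} := by rw [hc]; trivial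
      induction hy using AddSubgroup.closure_induction with
      | mem y hy => exact hall a x y hY hx hy
      | zero => exact map_zero _
      | add y z _ _ h1 h2 => rw [map_add, h1, h2, add_zero]
      | neg y _ h1 => rw [map_neg, h1, neg_zero]
    ext y
    have hu : u ∈ AddSubgroup.closure {a : A | Y 0 a} := by rw [hc]; trivial
    induction hu using AddSubgroup.closure_induction with
    | mem x hx => exact s1 x hx y
    | zero => simp [Q, Tzero]
    | add y z _ _ h1 h2 =>
      have e : Q a (y + z) = Q a y + Q a z := by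
        simp only [Q, Tadd, mul_add, add_mul]
      rw [e, ap_add, h1, h2]; simp
    | neg y _ h1 =>
      have e : Q a (-y) = - Q a y := by
        simp only [Q, Tneg, mul_neg, neg_mul]
      rw [e, ap_neg, h1]; simp
  · push_neg at hall
    obtain ⟨a, x, y, ha, hx, hy, hne⟩ := hall
    exact ⟨_, hne, level0_c h ha hx hy⟩

end Pool.Agent.Helper99.BD8
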