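import Pool.Agent.Helper99.BD8.Level0c

/-!
Level 1: elements `a` with `T_a T'_a = 0`, `T_a T_x T'_a = 0`; the trilinear forms.
-/

set_option autoImplicit false

namespace Pool.Agent.Helper99.BD8

variable {A : Type*} [NonUnitalNonAssocRing A]


/-- `F0 a x y z = a (x (y (a z)))` -/
def F0 (a x y : A) : AddMonoid.End A := (T true) a * ((T true) x * ((T true) y * (T true) a))
/-- `F1 a x y z = a (x (y (z a)))` -/
def F1 (a x y : A) : AddMonoid.End A := (T true) a * ((T true) x * ((T true) y * (T false) a))

section one

variable (h : Alt A) {a : A} (ha : Y 1 a)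

theorem Y.z1 {s : ℕ} {a : A} (ha : Y (s + 1) a) (t s' t' : Bool) (x : A) :
    T t a * (T s' x * T t' a) = 0 := by
  have := ha.2 t t' [(s', x)] (by simp)
  simpa [mul_assoc] using this

theorem Y.z1' {s : ℕ} {a : A} (ha : Y (s + 1) a) (t s' t' : Bool) (x : A) (w : AddMonoid.End A) :
    T t a * (T s' x * (T t' a * w)) = 0 := by
  have := ha.z1 t s' t' x
  calc T t a * (T s' x * (T t' a * w)) = T t a * (T s' x * T t' a) * w := by noncomm_ring
    _ = 0 := by rw [this, zero_mul]

theorem Y.zz' {s : ℕ} {a : A} (ha : Y s a) (t t' : Bool) (w : AddMonoid.End A) :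
    T t a * (T t' a * w) = 0 := by
  rw [← mul_assoc, ha.zz, zero_mul]

include h ha

theorem f_beta (k l : Bool) (x y : A) :
    (T false) a * ((T true) x * (T k y * T l a)) = (T true) a * ((T false) x * (T k y * T l a)) := by
  have h1 := opD h a x
  linear_combination (norm := noncomm_ring) (-h1) * T k y * T l a
    - (T false) x * ha.z1 true k l y + (T true) x * ha.z1 false k l y

theorem f_gamma (i j : Bool) (x y : A) :
    T i a * (T j x * ((T false) y * (T true) a)) = T i a * (T j x * ((T true) y * (T false) a)) := by
  have h1 := opD h a y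
  linear_combination (norm := noncomm_ring) (-(T i a * T j x)) * h1
    + ha.z1 i j true x * (T false) y - ha.z1 i j false x * (T true) y

theorem f_al1 (i l : Bool) (x y : A) :
    T i a * ((T true) x * ((T false) y * T l a)) = T i a * ((T false) y * ((T true) x * T l a)) + T i a * ((T true) y * ((T true) x * T l a)) := by
  have h1 := opLR h x y
  linear_combination (norm := noncomm_ring) T i a * h1 * T l a - ha.z1 i true l (y * x)

theorem f_al2 (i l : Bool) (x y : A) :
    T i a * ((T false) x * ((T true) y * T l a)) = T i a * ((T true) y * ((T false) x * T l a)) + T i a * ((T false) y * ((T false) x * T l a)) := by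
  have h1 := opRL h x y
  linear_combination (norm := noncomm_ring) T i a * h1 * T l a - ha.z1 i false l (x * y)

theorem f_al3 (i l : Bool) (x y : A) :
    T i a * ((T true) x * ((T true) y * T l a)) = - (T i a * ((T true) y * ((T true) x * T l a))) := by
  have h1 := opLL h x y
  linear_combination (norm := noncomm_ring) T i a * h1 * T l a + ha.z1 i true l (y * x)
    + ha.z1 i true l (x * y)

theorem f_al4 (i l : Bool) (x y : A) :
    T i a * ((T false) x * ((T false) y * T l a)) = T i a * ((T true) x * ((T true) y * T l a)) := by
  have h1 := f_al1 h ha i l x y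
  have h2 := f_al2 h ha i l y x
  have h3 := f_al3 h ha i l x y
  linear_combination (norm := noncomm_ring) -h1 - h2 - h3

theorem f_skew (i j : Bool) (x y z : A) :
    T i a (T j x (y * (z * a))) = - T i a (T j x (z * (y * a))) := by
  have h4 := altL h y z a
  have h2 : T i a (T j x ((y * z + z * y) * a)) = 0 := by
    have := DFunLike.congr_fun (ha.z1 i j false x) (y * z + z * y)
    simpa [ap_mul] using this
  rw [add_mul, h4, map_add, map_add] at h2
  exact eq_neg_of_add_eq_zero_left h2

/-- first-pair skew symmetry of `F0`, `F1` -/
theorem F0_s12 (x y : A) : F0 a x y = - F0 a y x := f_al3 h ha true true x y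
theorem F1_s12 (x y : A) : F1 a x y = - F1 a y x := f_al3 h ha true false x y

theorem F1_s23 (x y z : A) : F1 a x y z = - F1 a x z y := f_skew h ha true true x y z

theorem f_0101 (x y : A) : (T true) a * ((T false) x * ((T true) y * (T false) a)) = F0 a x y := by
  rw [← f_gamma h ha true false x y, f_al4 h ha true true x y]; rfl

theorem F0_s23 (x y z : A) : F0 a x y z = - F0 a x z y := by
  rw [← f_0101 h ha x y, ← f_0101 h ha x z]
  exact f_skew h ha true false x y z

theorem f_0000 (x y : A) : (T true) a * ((T true) x * ((T true) y * (T true) a)) = F0 a x y := rfl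
theorem f_0001 (x y : A) : (T true) a * ((T true) x * ((T true) y * (T false) a)) = F1 a x y := rfl
theorem f_0010 (x y : A) : (T true) a * ((T true) x * ((T false) y * (T true) a)) = F1 a x y := f_gamma h ha true true x y
theorem f_0110 (x y : A) : (T true) a * ((T false) x * ((T false) y * (T true) a)) = F0 a x y := f_al4 h ha true true x y
theorem f_0111 (x y : A) : (T true) a * ((T false) x * ((T false) y * (T false) a)) = F1 a x y := f_al4 h ha true false x y
theorem f_0100 (x y : A) : (T true) a * ((T false) x * ((T true) y * (T true) a)) = - F0 a x y - F1 a x y := by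
  have e := f_al1 h ha true true y x
  rw [f_0010 h ha, f_0000 h ha] at e
  have e2 := F1_s12 h ha y x
  linear_combination (norm := noncomm_ring) -e + e2
theorem f_0011 (x y : A) : (T true) a * ((T true) x * ((T false) y * (T false) a)) = - F0 a x y - F1 a x y := by
  have e := f_al1 h ha true false x y
  rw [f_0101 h ha, f_0001 h ha] at e
  rw [e, F0_s12 h ha y x, F1_s12 h ha y x]; abel
theorem f_1000 (x y : A) : (T false) a * ((T true) x * ((T true) y * (T true) a)) = - F0 a x y - F1 a x y := by
  rw [f_beta h ha, f_0100 h ha]
theorem f_1001 (x y : A) : (T false) a * ((T true) x * ((T true) y * (T false) a)) = F0 a x y := by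
  rw [f_beta h ha, f_0101 h ha]
theorem f_1010 (x y : A) : (T false) a * ((T true) x * ((T false) y * (T true) a)) = F0 a x y := by
  rw [f_beta h ha, f_0110 h ha]
theorem f_1011 (x y : A) : (T false) a * ((T true) x * ((T false) y * (T false) a)) = F1 a x y := by
  rw [f_beta h ha, f_0111 h ha]
theorem f_1110 (x y : A) : (T false) a * ((T false) x * ((T false) y * (T true) a)) = - F0 a x y - F1 a x y := by
  rw [f_al4 h ha, f_1000 h ha]
theorem f_1111 (x y : A) : (T false) a * ((T false) x * ((T false) y * (T false) a)) = F0 a x y := by
  rw [f_al4 h ha, f_1001 h ha]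
theorem f_1100 (x y : A) : (T false) a * ((T false) x * ((T true) y * (T true) a)) = F1 a x y := by
  have e := f_al1 h ha false true y x
  rw [f_1010 h ha, f_1000 h ha] at e
  have e2 := F0_s12 h ha y x
  linear_combination (norm := noncomm_ring) -e + e2
theorem f_1101 (x y : A) : (T false) a * ((T false) x * ((T true) y * (T false) a)) = - F0 a x y - F1 a x y := by
  have e := f_al1 h ha false false y x
  rw [f_1011 h ha, f_1001 h ha] at e
  have e2 := F1_s12 h ha y x
  linear_combination (norm := noncomm_ring) -e + e2

/-- value of `T_a T_x T_y T_a` -/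
def FF (i j k l : Bool) (a x y : A) : AddMonoid.End A :=
  match i, j, k, l with
  | true, true, true, true => F0 a x y
  | true, true, true, false => F1 a x y
  | true, true, false, true => F1 a x y
  | true, true, false, false => - F0 a x y - F1 a x y
  | true, false, true, true => - F0 a x y - F1 a x y
  | true, false, true, false => F0 a x y
  | true, false, false, true => F0 a x y
  | true, false, false, false => F1 a x y
  | false, true, true, true => - F0 a x y - F1 a x y
  | false, true, true, false => F0 a x y
  | false, true, false, true => F0 a x y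
  | false, true, false, false => F1 a x y
  | false, false, true, true => F1 a x y
  | false, false, true, false => - F0 a x y - F1 a x y
  | false, false, false, true => - F0 a x y - F1 a x y
  | false, false, false, false => F0 a x y

theorem f_gen (i j k l : Bool) (x y : A) :
    T i a * (T j x * (T k y * T l a)) = FF i j k l a x y := by
  cases i <;> cases j <;> cases k <;> cases l <;> simp only [FF]
  · exact f_1111 h ha x y
  · exact f_1110 h ha x y
  · exact f_1101 h ha x y
  · exact f_1100 h ha x y
  · exact f_1011 h ha x y
  · exact f_1010 h ha x y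
  · exact f_1001 h ha x y
  · exact f_1000 h ha x y
  · exact f_0111 h ha x y
  · exact f_0110 h ha x y
  · exact f_0101 h ha x y
  · exact f_0100 h ha x y
  · exact f_0011 h ha x y
  · exact f_0010 h ha x y
  · rfl
  · rfl

theorem f_gen' (i j k l : Bool) (x y : A) (w : AddMonoid.End A) :
    T i a * (T j x * (T k y * (T l a * w))) = FF i j k l a x y * w := by
  rw [← f_gen h ha]; noncomm_ring

end one

theorem Y2_iff (h : Alt A) (a : A) : Y 2 a ↔ Y 1 a ∧ ∀ x y, F0 a x y = 0 ∧ F1 a x y = 0 := by
  constructor
  · intro ha
    refine ⟨ha.le (by omega), fun x y => ⟨?_, ?_⟩⟩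
    · have := ha.2 true true [(true, x), (true, y)] (by simp)
      simpa [F0, mul_assoc] using this
    · have := ha.2 true false [(true, x), (true, y)] (by simp)
      simpa [F1, mul_assoc] using this
  · rintro ⟨ha, hF⟩
    refine ⟨ha.1, ?_⟩
    intro t t' w hw
    match w, hw with
    | [], _ => simpa using ha.zz t t'
    | [p], _ => exact ha.2 t t' [p] (by simp)
    | [p, q], _ =>
      obtain ⟨s, x⟩ := p
      obtain ⟨s', y⟩ := q
      have e := f_gen h ha t s s' t' x y
      have q0 := hF x y
      have : T t a * W [(s, x), (s', y)] * T t' a = T t a * (T s x * (T s' y * T t' a)) := by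
        simp [mul_assoc]
      rw [this, e]
      cases t <;> cases t' <;> cases s <;> cases s' <;> simp [FF, q0.1, q0.2]
    | p :: q :: r :: w, hw => simp at hw

end Pool.Agent.Helper99.BD8
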