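import Pool.Agent.Helper99.BD8.Level1

/-!
Level 1: two elements.
-/

set_option autoImplicit false

namespace Pool.Agent.Helper99.BD8

variable {A : Type*} [NonUnitalNonAssocRing A]


section one
variable (h : Alt A) {b : A} (hb : Y 1 b)
include h hb

theorem F0_cyc (x y z : A) : F0 b x y z = F0 b z x y := by
  rw [F0_s23 h hb, ← ap_neg, ← F0_s12 h hb]

theorem F1_cyc (x y z : A) : F1 b x y z = F1 b z x y := by
  rw [F1_s23 h hb, ← ap_neg, ← F1_s12 h hb]

theorem TT0 (s n t : Bool) (z : A) : T s (T n b z) * T t b = 0 := by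
  have z0 := hb.zz
  cases s <;> cases n
  · have := opR h z b
    simp only [T_false]
    rw [this]
    linear_combination (norm := noncomm_ring) hb.z1 false true t z - (T true) z * z0 false t
      + hb.z1 false false t z
  · have := opR h b z
    simp only [T_true]
    rw [this]
    linear_combination (norm := noncomm_ring) (T false) z * z0 true t - hb.z1 true false t z
      + (T false) z * z0 false t
  · have := opL h z b
    simp only [T_false]
    rw [this]
    linear_combination (norm := noncomm_ring) (T true) z * z0 false t + (T true) z * z0 true t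
      - hb.z1 false true t z
  · have := opL h b z
    simp only [T_true]
    rw [this]
    linear_combination (norm := noncomm_ring) hb.z1 true false t z + hb.z1 true true t z
      - (T false) z * z0 true t

end one

theorem F0_add (a x x' y : A) : F0 a (x + x') y = F0 a x y + F0 a x' y := by
  simp only [F0, Tadd, add_mul, mul_add]
theorem F1_add (a x x' y : A) : F1 a (x + x') y = F1 a x y + F1 a x' y := by
  simp only [F1, Tadd, add_mul, mul_add]

section two

variable (h : Alt A) {a b : A} (ha : Y 1 a) (hb : Y 1 b)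


/-- the common value -/
def Pp (a b u v : A) : AddMonoid.End A := (T true) a * (F0 b u v * (T true) a)

include h ha hb

theorem F0ab_b (v : A) (n : Bool) : F0 a b v * T n b = 0 := by
  ext z
  rw [ap_mul, F0_cyc h ha, ap_zero]
  have e : F0 a (T n b z) b = (T true) a * (((T true) (T n b z) * (T true) b) * (T true) a) := by
    simp only [F0]; noncomm_ring
  rw [e, TT0 h hb]; simp

theorem F1ab_b (v : A) (n : Bool) : F1 a b v * T n b = 0 := by
  ext z
  rw [ap_mul, F1_cyc h ha, ap_zero]
  have e : F1 a (T n b z) b = (T true) a * (((T true) (T n b z) * (T true) b) * (T false) a) := by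
    simp only [F1]; noncomm_ring
  rw [e, TT0 h hb]; simp

theorem s1_ll (u v : A) (i l : Bool) : FF i true true l a (b * u) (b * v) =
    - (T i a * (F0 b u v * T l a)) - T i a * (F1 b u v * T l a) := by
  have V := f_gen h ha i true true l (b * u) (b * v)
  rw [opL h b u, opL h b v] at V
  cases i <;> cases l <;> (simp only [mul_add, add_mul, mul_sub, sub_mul, neg_mul,
        mul_neg, mul_assoc, neg_neg, neg_zero, add_zero, zero_add, sub_zero, zero_sub, mul_zero, zero_mul,
        ha.zz, ha.zz', ha.z1, ha.z1', hb.zz, hb.zz', hb.z1, hb.z1',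
        f_gen h ha, f_gen' h ha, f_gen h hb, f_gen' h hb, FF] at V) <;> simp only [FF] <;>
    linear_combination (norm := noncomm_ring) -V

theorem s1_lr (u v : A) (i l : Bool) : FF i true false l a (b * u) (b * v) =
    T i a * (F1 b u v * T l a) := by
  have V := f_gen h ha i true false l (b * u) (b * v)
  rw [opL h b u, opR h b v] at V
  cases i <;> cases l <;> (simp only [mul_add, add_mul, mul_sub, sub_mul, neg_mul,
        mul_neg, mul_assoc, neg_neg, neg_zero, add_zero, zero_add, sub_zero, zero_sub, mul_zero, zero_mul,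
        ha.zz, ha.zz', ha.z1, ha.z1', hb.zz, hb.zz', hb.z1, hb.z1',
        f_gen h ha, f_gen' h ha, f_gen h hb, f_gen' h hb, FF] at V) <;> simp only [FF] <;>
    linear_combination (norm := noncomm_ring) -V

theorem w1 (u v : A) : F0 a b u * ((T true) v * (T true) b) = (T true) a * F0 b (u * a) v + (T true) a * F0 b (a * u) v := by
  have V : (T true) a * ((T true) b * ((T true) u * ((T true) a * ((T true) v * (T true) b)))) = (T true) a * (T true) b * ((T true) u * (T true) a) * (T true) v * (T true) b := by
    noncomm_ring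
  rw [swLL h u a] at V
  (simp only [mul_add, add_mul, mul_sub, sub_mul, neg_mul,
        mul_neg, mul_assoc, neg_neg, neg_zero, add_zero, zero_add, sub_zero, zero_sub, mul_zero, zero_mul,
        ha.zz, ha.zz', ha.z1, ha.z1', hb.zz, hb.zz', hb.z1, hb.z1',
        f_gen h ha, f_gen' h ha, f_gen h hb, f_gen' h hb, FF] at V)
  linear_combination (norm := noncomm_ring) V

theorem w2 (u v : A) : F0 a b u * ((T false) v * (T true) b) = (T true) a * F1 b (u * a) v + (T true) a * F1 b (a * u) v := by
  have V : (T true) a * ((T true) b * ((T true) u * ((T true) a * ((T false) v * (T true) b)))) = (T true) a * (T true) b * ((T true) u * (T true) a) * (T false) v * (T true) b := by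
    noncomm_ring
  rw [swLL h u a] at V
  (simp only [mul_add, add_mul, mul_sub, sub_mul, neg_mul,
        mul_neg, mul_assoc, neg_neg, neg_zero, add_zero, zero_add, sub_zero, zero_sub, mul_zero, zero_mul,
        ha.zz, ha.zz', ha.z1, ha.z1', hb.zz, hb.zz', hb.z1, hb.z1',
        f_gen h ha, f_gen' h ha, f_gen h hb, f_gen' h hb, FF] at V)
  linear_combination (norm := noncomm_ring) V

theorem x1 (v z : A) : F0 a (v * (b * z)) b =
    - ((T true) a * (F0 b z v * (T true) a)) - (T true) a * (F1 b z v * (T true) a) := by
  have V : F0 a (v * (b * z)) b = (T true) a * ((T true) (v * (b * z)) * ((T true) b * (T true) a)) := by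
    simp only [F0]
  rw [opL h v (b * z), opL h b z, opR h b z] at V
  (simp only [mul_add, add_mul, mul_sub, sub_mul, neg_mul,
        mul_neg, mul_assoc, neg_neg, neg_zero, add_zero, zero_add, sub_zero, zero_sub, mul_zero, zero_mul,
        ha.zz, ha.zz', ha.z1, ha.z1', hb.zz, hb.zz', hb.z1, hb.z1',
        f_gen h ha, f_gen' h ha, f_gen h hb, f_gen' h hb, FF] at V)
  linear_combination (norm := noncomm_ring) V

theorem x2 (v z : A) : F0 a ((b * z) * v) b = (T true) a * (F0 b z v * (T true) a) := by
  have V : F0 a ((b * z) * v) b = (T true) a * ((T true) ((b * z) * v) * ((T true) b * (T true) a)) := by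
    simp only [F0]
  rw [opL h (b * z) v, opL h b z] at V
  (simp only [mul_add, add_mul, mul_sub, sub_mul, neg_mul,
        mul_neg, mul_assoc, neg_neg, neg_zero, add_zero, zero_add, sub_zero, zero_sub, mul_zero, zero_mul,
        ha.zz, ha.zz', ha.z1, ha.z1', hb.zz, hb.zz', hb.z1, hb.z1',
        f_gen h ha, f_gen' h ha, f_gen h hb, f_gen' h hb, FF] at V)
  linear_combination (norm := noncomm_ring) V

theorem R1 (v z : A) : (T true) a * (F1 b v z * (T true) a) = (T true) a * (F0 b v z * (T false) a) := by
  ext u
  have e1 := DFunLike.congr_fun (w1 h ha hb u v) z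
  have e2 := DFunLike.congr_fun (x1 h ha hb v z) u
  simp only [ap_mul, ap_add, ap_sub, ap_neg, T_true, T_false] at e1 e2 ⊢
  rw [F0_cyc h ha b u, F0_cyc h hb (u * a), F0_cyc h hb (a * u), F0_cyc h hb z (u * a),
    F0_cyc h hb z (a * u), e2, F0_s12 h hb z v, F1_s12 h hb z v] at e1
  simp only [ap_neg, mul_neg, neg_neg] at e1
  have e3 := sub_eq_zero.mpr e1
  rw [← sub_eq_zero, ← e3]; abel

theorem R2 (v z : A) : - ((T true) a * (F0 b v z * (T true) a)) =
    (T true) a * (F1 b v z * (T false) a) + (T true) a * (F1 b v z * (T true) a) := by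
  ext u
  have e1 := DFunLike.congr_fun (w2 h ha hb u v) z
  have e2 := DFunLike.congr_fun (x2 h ha hb v z) u
  simp only [ap_mul, ap_add, ap_sub, ap_neg, T_true, T_false] at e1 e2 ⊢
  rw [F0_cyc h ha b u, F1_cyc h hb (u * a), F1_cyc h hb (a * u), F1_cyc h hb z (u * a),
    F1_cyc h hb z (a * u), e2, F0_s12 h hb z v] at e1
  simp only [ap_neg, mul_neg, neg_neg] at e1
  exact e1

theorem P_main (u v : A) : Pp a b u v + Pp a b u v + Pp a b u v = 0 ∧
    (∀ i l : Bool, T i a * (F0 b u v * T l a) = Pp a b u v ∧
      T i a * (F1 b u v * T l a) = Pp a b u v) ∧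
    F0 a (b * u) (b * v) = Pp a b u v ∧ F1 a (b * u) (b * v) = Pp a b u v := by
  have r1 := R1 h ha hb u v
  have r2 := R2 h ha hb u v
  have a1 := s1_ll h ha hb u v true true
  have a2 := s1_ll h ha hb u v true false
  have a3 := s1_ll h ha hb u v false true
  have a4 := s1_ll h ha hb u v false false
  have b1 := s1_lr h ha hb u v true true
  have b2 := s1_lr h ha hb u v true false
  have b3 := s1_lr h ha hb u v false true
  have b4 := s1_lr h ha hb u v false false
  simp only [FF] at a1 a2 a3 a4 b1 b2 b3 b4
  -- p1 = p0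
  have p1 : F1 a (b * u) (b * v) = F0 a (b * u) (b * v) := by
    linear_combination (norm := noncomm_ring) b1 + r1 + a2 + b2
  have hX : (T true) a * (F0 b u v * (T true) a) = F0 a (b * u) (b * v) := by
    linear_combination (norm := noncomm_ring) -r2 + b2 + b1
  have h3 : F0 a (b * u) (b * v) + F0 a (b * u) (b * v) + F0 a (b * u) (b * v) = 0 := by
    linear_combination (norm := noncomm_ring) a1 - hX - p1 + b1
  have hP : Pp a b u v = F0 a (b * u) (b * v) := hX
  rw [hP]
  refine ⟨h3, ?_, rfl, p1⟩
  intro i l
  cases i <;> cases l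
  · constructor
    · linear_combination (norm := noncomm_ring) a4 + b4 - p1 - h3
    · linear_combination (norm := noncomm_ring) -b4 + p1
  · constructor
    · linear_combination (norm := noncomm_ring) a3 + b3 + p1
    · linear_combination (norm := noncomm_ring) -b3
  · constructor
    · linear_combination (norm := noncomm_ring) a2 + b2
    · linear_combination (norm := noncomm_ring) -b2 - p1 - h3
  · constructor
    · exact hX
    · linear_combination (norm := noncomm_ring) -b1 + p1

theorem P3 (u v : A) : Pp a b u v + Pp a b u v + Pp a b u v = 0 := (P_main h ha hb u v).1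
theorem P3' (u v z : A) : Pp a b u v z + Pp a b u v z + Pp a b u v z = 0 := by
  have := DFunLike.congr_fun (P3 h ha hb u v) z
  simpa [ap_add] using this
theorem PF0 (u v : A) (i l : Bool) : T i a * (F0 b u v * T l a) = Pp a b u v :=
  ((P_main h ha hb u v).2.1 i l).1
theorem PF1 (u v : A) (i l : Bool) : T i a * (F1 b u v * T l a) = Pp a b u v :=
  ((P_main h ha hb u v).2.1 i l).2

theorem FTT0 (k n : Bool) (u v : A) : F0 a (T k b u) (T n b v) = Pp a b u v := by
  have V := f_gen h ha true true true true (T k b u) (T n b v)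
  cases k <;> cases n <;> simp only [T_true, T_false] at V ⊢
  · rw [opL h u b, opL h v b] at V
    (simp only [mul_add, add_mul, mul_sub, sub_mul, neg_mul,
        mul_neg, mul_assoc, neg_neg, neg_zero, add_zero, zero_add, sub_zero, zero_sub, mul_zero, zero_mul,
        ha.zz, ha.zz', ha.z1, ha.z1', hb.zz, hb.zz', hb.z1, hb.z1',
        f_gen h ha, f_gen' h ha, f_gen h hb, f_gen' h hb, FF] at V)
    rw [PF0 h ha hb, PF1 h ha hb] at V
    linear_combination (norm := noncomm_ring) -V
  · rw [opL h u b, opL h b v] at V
    (simp only [mul_add, add_mul, mul_sub, sub_mul, neg_mul,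
        mul_neg, mul_assoc, neg_neg, neg_zero, add_zero, zero_add, sub_zero, zero_sub, mul_zero, zero_mul,
        ha.zz, ha.zz', ha.z1, ha.z1', hb.zz, hb.zz', hb.z1, hb.z1',
        f_gen h ha, f_gen' h ha, f_gen h hb, f_gen' h hb, FF] at V)
    rw [PF0 h ha hb] at V
    linear_combination (norm := noncomm_ring) -V
  · rw [opL h b u, opL h v b] at V
    (simp only [mul_add, add_mul, mul_sub, sub_mul, neg_mul,
        mul_neg, mul_assoc, neg_neg, neg_zero, add_zero, zero_add, sub_zero, zero_sub, mul_zero, zero_mul,
        ha.zz, ha.zz', ha.z1, ha.z1', hb.zz, hb.zz', hb.z1, hb.z1',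
        f_gen h ha, f_gen' h ha, f_gen h hb, f_gen' h hb, FF] at V)
    rw [PF0 h ha hb, PF1 h ha hb] at V
    linear_combination (norm := noncomm_ring) -V
  · exact (P_main h ha hb u v).2.2.1

theorem FTT1 (k n : Bool) (u v : A) : F1 a (T k b u) (T n b v) = Pp a b u v := by
  have V := f_gen h ha true true true false (T k b u) (T n b v)
  cases k <;> cases n <;> simp only [T_true, T_false] at V ⊢
  · rw [opL h u b, opL h v b] at V
    (simp only [mul_add, add_mul, mul_sub, sub_mul, neg_mul,
        mul_neg, mul_assoc, neg_neg, neg_zero, add_zero, zero_add, sub_zero, zero_sub, mul_zero, zero_mul,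
        ha.zz, ha.zz', ha.z1, ha.z1', hb.zz, hb.zz', hb.z1, hb.z1',
        f_gen h ha, f_gen' h ha, f_gen h hb, f_gen' h hb, FF] at V)
    rw [PF0 h ha hb, PF1 h ha hb] at V
    linear_combination (norm := noncomm_ring) -V
  · rw [opL h u b, opL h b v] at V
    (simp only [mul_add, add_mul, mul_sub, sub_mul, neg_mul,
        mul_neg, mul_assoc, neg_neg, neg_zero, add_zero, zero_add, sub_zero, zero_sub, mul_zero, zero_mul,
        ha.zz, ha.zz', ha.z1, ha.z1', hb.zz, hb.zz', hb.z1, hb.z1',
        f_gen h ha, f_gen' h ha, f_gen h hb, f_gen' h hb, FF] at V)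
    rw [PF0 h ha hb] at V
    linear_combination (norm := noncomm_ring) -V
  · rw [opL h b u, opL h v b] at V
    (simp only [mul_add, add_mul, mul_sub, sub_mul, neg_mul,
        mul_neg, mul_assoc, neg_neg, neg_zero, add_zero, zero_add, sub_zero, zero_sub, mul_zero, zero_mul,
        ha.zz, ha.zz', ha.z1, ha.z1', hb.zz, hb.zz', hb.z1, hb.z1',
        f_gen h ha, f_gen' h ha, f_gen h hb, f_gen' h hb, FF] at V)
    rw [PF0 h ha hb, PF1 h ha hb] at V
    linear_combination (norm := noncomm_ring) -V
  · exact (P_main h ha hb u v).2.2.2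

theorem E2 (i j k m l n : Bool) (u v z : A) :
    (T i a * (T j u * (T k b * (T m v * (T l a * T n b))))) z = - (Pp a b v z u) := by
  have p3 := P3' h ha hb v z u
  have g0 : ∀ s : Bool, F0 a u (T s b v) (T n b z) = Pp a b v z u := by
    intro s
    rw [F0_cyc h ha, F0_cyc h ha, FTT0 h ha hb]
  have g1 : ∀ s : Bool, F1 a u (T s b v) (T n b z) = Pp a b v z u := by
    intro s
    rw [F1_cyc h ha, F1_cyc h ha, FTT1 h ha hb]
  have g0t := g0 true
  have g0f := g0 false
  have g1t := g1 true
  have g1f := g1 false
  simp only [T_true, T_false] at g0t g0f g1t g1f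
  have key : ∀ W0 : AddMonoid.End A, W0 = T i a * T j u * (T k b * T m v) * T l a * T n b →
      W0 z = - (Pp a b v z u) := by
    intro W0 V
    cases k <;> cases m
    · rw [swRR h b v] at V
      (simp only [mul_add, add_mul, mul_sub, sub_mul, neg_mul,
        mul_neg, mul_assoc, neg_neg, neg_zero, add_zero, zero_add, sub_zero, zero_sub, mul_zero, zero_mul,
        ha.zz, ha.zz', ha.z1, ha.z1', hb.zz, hb.zz', hb.z1, hb.z1',
        f_gen h ha, f_gen' h ha, f_gen h hb, f_gen' h hb, FF] at V)
      have V2 := DFunLike.congr_fun V z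
      cases i <;> cases j <;> cases l <;>
        simp only [FF, ap_add, ap_mul, ap_neg, ap_sub, add_mul, sub_mul, neg_mul, g0t, g0f, g1t, g1f] at V2 <;>
        rw [V2] <;> first | (linear_combination (norm := abel1) p3) | (linear_combination (norm := abel1) -p3)
    · rw [opRL h b v] at V
      (simp only [mul_add, add_mul, mul_sub, sub_mul, neg_mul,
        mul_neg, mul_assoc, neg_neg, neg_zero, add_zero, zero_add, sub_zero, zero_sub, mul_zero, zero_mul,
        ha.zz, ha.zz', ha.z1, ha.z1', hb.zz, hb.zz', hb.z1, hb.z1',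
        f_gen h ha, f_gen' h ha, f_gen h hb, f_gen' h hb, FF] at V)
      have V2 := DFunLike.congr_fun V z
      cases i <;> cases j <;> cases l <;>
        simp only [FF, ap_add, ap_mul, ap_neg, ap_sub, add_mul, sub_mul, neg_mul, g0t, g0f, g1t, g1f] at V2 <;>
        rw [V2] <;> first | abel1 | (linear_combination (norm := abel1) p3) | (linear_combination (norm := abel1) -p3)
    · rw [opLR h b v] at V
      (simp only [mul_add, add_mul, mul_sub, sub_mul, neg_mul,
        mul_neg, mul_assoc, neg_neg, neg_zero, add_zero, zero_add, sub_zero, zero_sub, mul_zero, zero_mul,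
        ha.zz, ha.zz', ha.z1, ha.z1', hb.zz, hb.zz', hb.z1, hb.z1',
        f_gen h ha, f_gen' h ha, f_gen h hb, f_gen' h hb, FF] at V)
      have V2 := DFunLike.congr_fun V z
      cases i <;> cases j <;> cases l <;>
        simp only [FF, ap_add, ap_mul, ap_neg, ap_sub, add_mul, sub_mul, neg_mul, g0t, g0f, g1t, g1f] at V2 <;>
        rw [V2] <;> first | abel1 | (linear_combination (norm := abel1) p3) | (linear_combination (norm := abel1) -p3)
    · rw [swLL h b v] at V
      (simp only [mul_add, add_mul, mul_sub, sub_mul, neg_mul,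
        mul_neg, mul_assoc, neg_neg, neg_zero, add_zero, zero_add, sub_zero, zero_sub, mul_zero, zero_mul,
        ha.zz, ha.zz', ha.z1, ha.z1', hb.zz, hb.zz', hb.z1, hb.z1',
        f_gen h ha, f_gen' h ha, f_gen h hb, f_gen' h hb, FF] at V)
      have V2 := DFunLike.congr_fun V z
      cases i <;> cases j <;> cases l <;>
        simp only [FF, ap_add, ap_mul, ap_neg, ap_sub, add_mul, sub_mul, neg_mul, g0t, g0f, g1t, g1f] at V2 <;>
        rw [V2] <;> first | abel1 | (linear_combination (norm := abel1) p3) | (linear_combination (norm := abel1) -p3)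
  exact key _ (by noncomm_ring)

theorem bF (t : Bool) (v : A) : T t b * F0 a v b = 0 ∧ T t b * F1 a v b = 0 := by
  constructor
  · rw [F0_s12 h ha]
    have e : T t b * F0 a b v = (T t b * ((T true) a * (T true) b)) * ((T true) v * (T true) a) := by
      simp only [F0]; noncomm_ring
    rw [mul_neg, e, hb.z1]; simp
  · rw [F1_s12 h ha]
    have e : T t b * F1 a b v = (T t b * ((T true) a * (T true) b)) * ((T true) v * (T false) a) := by
      simp only [F1]; noncomm_ring
    rw [mul_neg, e, hb.z1]; simp

omit ha in
theorem Pp_s12 (u v : A) : Pp a b u v = - Pp a b v u := by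
  simp only [Pp]
  rw [F0_s12 h hb]; simp

theorem cyc_rel (u v z : A) : Pp a b u v z = Pp b a v z u := by
  have hbf := fun t v => bF h ha hb t v
  have haf := fun t v => bF h hb ha t v
  have E1 : ∀ W0 : AddMonoid.End A, W0 = (T true) (a * (b * u)) * ((T true) v * ((T true) b * (T true) a)) →
      W0 z = Pp a b u v z - Pp b a v z u := by
    intro W0 V
    rw [opL h a (b * u), opL h b u, opR h b u] at V
    (simp only [mul_add, add_mul, mul_sub, sub_mul, neg_mul,
        mul_neg, mul_assoc, neg_neg, neg_zero, add_zero, zero_add, sub_zero, zero_sub, mul_zero, zero_mul,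
        ha.zz, ha.zz', ha.z1, ha.z1', hb.zz, hb.zz', hb.z1, hb.z1',
        f_gen h ha, f_gen' h ha, f_gen h hb, f_gen' h hb, FF] at V)
    rw [(hbf true v).1, (hbf false v).1, PF0 h ha hb, PF1 h ha hb] at V
    have V2 := DFunLike.congr_fun V z
    have k := E2 h hb ha true false true true true true u v z
    have k' : ((T true) b * ((T false) u * F0 a v b)) z = - (Pp b a v z u) := k
    simp only [ap_add, ap_sub, ap_neg, mul_zero, ap_zero, k'] at V2
    rw [V2]; abel
  have E2' : ∀ W0 : AddMonoid.End A, W0 = (T false) (v * (b * (a * z))) * ((T true) a * (T true) b) →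
      W0 u = - (Pp a b v u z) - Pp a b v u z - Pp b a z v u := by
    intro W0 V
    rw [opR h v (b * (a * z)), opR h b (a * z), opR h a z] at V
    (simp only [mul_add, add_mul, mul_sub, sub_mul, neg_mul,
        mul_neg, mul_assoc, neg_neg, neg_zero, add_zero, zero_add, sub_zero, zero_sub, mul_zero, zero_mul,
        ha.zz, ha.zz', ha.z1, ha.z1', hb.zz, hb.zz', hb.z1, hb.z1',
        f_gen h ha, f_gen' h ha, f_gen h hb, f_gen' h hb, FF] at V)
    rw [(haf true v).1, (haf false v).1, (haf true v).2, (haf false v).2, PF0 h hb ha,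
      PF1 h hb ha] at V
    have V2 := DFunLike.congr_fun V u
    have k := E2 h ha hb true false true true true true z v u
    have k1 : ((T true) a * ((T false) z * F0 b v a)) u = - (Pp a b v u z) := k
    have k := E2 h ha hb true false true true true false z v u
    have k2 : ((T true) a * ((T false) z * F1 b v a)) u = - (Pp a b v u z) := k
    simp only [ap_add, ap_sub, ap_neg, mul_zero, ap_zero, k1, k2] at V2
    rw [V2]; abel
  have e1 := E1 _ rfl
  have e2 := E2' _ rfl
  have e3 : ((T true) (a * (b * u)) * ((T true) v * ((T true) b * (T true) a))) z = ((T false) (v * (b * (a * z))) * ((T true) a * (T true) b)) u := rfl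
  rw [e1, e2, Pp_s12 h hb v u, Pp_s12 h ha z v] at e3
  have p1 := P3' h ha hb u v z
  have p2 := P3' h hb ha v z u
  simp only [ap_neg] at e3
  linear_combination (norm := abel) -e3 - p2

theorem Pp_cyc (u v z : A) : Pp a b u v z = Pp a b z u v := by
  rw [cyc_rel h ha hb, cyc_rel h hb ha]

theorem Pp_symm (u v : A) : Pp a b u v = Pp b a u v := by
  ext z
  rw [cyc_rel h ha hb, Pp_cyc h hb ha u v z, Pp_cyc h hb ha z u v]

theorem Pp_s23 (u v z : A) : Pp a b u v z = - (Pp a b u z v) := by
  rw [Pp_cyc h ha hb u v z, Pp_s12 h hb z u, ap_neg]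

end two

end Pool.Agent.Helper99.BD8
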